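import Pool.Agent.H507.FinP

/-!
# A Courant nodal theorem for the forms violating the Ramanujan bound at `p`

`φ ≠ 0` is a real cusp form for `SL(2, ℤ)` with Laplace eigenvalue `lam`, an eigenfunction of `T_p`
with normalised eigenvalue `x p` (so `T_p φ = √p x_p φ`), which violates the Ramanujan bound:
`|x p| > 2`.  The `p`-nodal classes of `φ` are the classes of the equivalence relation on
`{φ ≠ 0}` generated by nodal domains, `SL(2, ℤ)` and the Hecke moves at `p`
with `x p * φ z * φ w > 0`.  Let `c > (lam - 1/4) / (|x p| - 2)`.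

* Part 1, Courant bound: there are `N` linearly independent cusp forms `ψ_j`,
  eigenfunctions of the Laplacian and of `T_p`, which violate the Ramanujan bound at `p` with the
  same sign as `φ` and with `lam_j - c |x_j| < lam - c |x p|`, such that `φ` has at most `N + 2` (if
  `x p > 0`), resp. `N + 1` (if `x p < 0`) `p`-nodal classes.
  Extremal violator: there is a cusp form `ψ ≠ 0`, a joint eigenfunction of the Laplacian
  and of all `T_q`, which violates the Ramanujan bound at `p` with the same sign, with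
  `lam' - c |x' p| ≤ lam - c |x p|`, and which has exactly two, resp. exactly one,
  `p`-nodal classes.
* Part 2: the same for the forms of parity `ε = ± 1` under `rf z = - z̄`, with the nodal classes
  modulo `rf`, and all forms involved of the same parity (for `ε = -1` the bounds are `N + 1` and
  exactly one class).  The forms with `ε = 1` are the spherical cusp forms on `PGL(2)`.
* Part 3: the Ramanujan bound at `p` for all even cusp forms of level one is equivalent to the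
  Ramanujan bound at `p` for the even Hecke eigenforms with exactly two `p`-nodal classes modulo
  `rf` if `x p > 0` and exactly one if `x p ≤ 0`.
* Part 4: the same as part 3 for all cusp forms and `p`-nodal classes.
-/

open UpperHalfPlane
open scoped MatrixGroups
open Pool.Agent.H507

theorem Pool.Agent.Results.MP_fa98d2_nt.CourantHecke.result (p : ℕ) (hp : p.Prime) :
    (∀ (φ : ℍ → ℝ) (lam : ℝ) (x : ℕ → ℝ) (c : ℝ), IsCuspForm φ lam → (∃ z, φ z ≠ 0) →
      IsHecke φ p (x p) → 2 < |x p| → (lam - 1 / 4) / (|x p| - 2) < c →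
      (Finite (NodalClass φ {p} x) ∧
        ∃ (N : ℕ) (ψ : Fin N → ℍ → ℝ), LinearIndependent ℝ ψ ∧
          (∀ j, ∃ lam' x' : ℝ, IsCuspForm (ψ j) lam' ∧ IsHecke (ψ j) p x' ∧ 0 < x' * x p ∧
            2 < |x'| ∧ lam' - c * |x'| < lam - c * |x p|) ∧
          Nat.card (NodalClass φ {p} x) ≤ N + (if 0 < x p then 2 else 1)) ∧
      ∃ (ψ : ℍ → ℝ) (lam' : ℝ) (x' : ℕ → ℝ), IsCuspForm ψ lam' ∧ (∃ z, ψ z ≠ 0) ∧
        (∀ q, q.Prime → IsHecke ψ q (x' q)) ∧ 0 < x' p * x p ∧ 2 < |x' p| ∧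
        lam' - c * |x' p| ≤ lam - c * |x p| ∧
        Nat.card (NodalClass ψ {p} x') = if 0 < x p then 2 else 1) ∧
    (∀ (φ : ℍ → ℝ) (lam : ℝ) (x : ℕ → ℝ) (c ε : ℝ), IsCuspForm φ lam → (∃ z, φ z ≠ 0) →
      IsHecke φ p (x p) → 2 < |x p| → (lam - 1 / 4) / (|x p| - 2) < c →
      (ε = 1 ∨ ε = -1) → (∀ z, φ (rf z) = ε * φ z) →
      (Finite (NodalClassR φ {p} x) ∧
        ∃ (N : ℕ) (ψ : Fin N → ℍ → ℝ), LinearIndependent ℝ ψ ∧
          (∀ j, (∀ z, ψ j (rf z) = ε * ψ j z) ∧ ∃ lam' x' : ℝ, IsCuspForm (ψ j) lam' ∧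
            IsHecke (ψ j) p x' ∧ 0 < x' * x p ∧ 2 < |x'| ∧
            lam' - c * |x'| < lam - c * |x p|) ∧
          Nat.card (NodalClassR φ {p} x) ≤ N + (if ε = 1 ∧ 0 < x p then 2 else 1)) ∧
      ∃ (ψ : ℍ → ℝ) (lam' : ℝ) (x' : ℕ → ℝ), IsCuspForm ψ lam' ∧ (∃ z, ψ z ≠ 0) ∧
        (∀ z, ψ (rf z) = ε * ψ z) ∧ (∀ q, q.Prime → IsHecke ψ q (x' q)) ∧
        0 < x' p * x p ∧ 2 < |x' p| ∧ lam' - c * |x' p| ≤ lam - c * |x p| ∧
        Nat.card (NodalClassR ψ {p} x') = if ε = 1 ∧ 0 < x p then 2 else 1) ∧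
    ((∀ (φ : ℍ → ℝ) (lam x : ℝ), IsCuspForm φ lam → (∃ z, φ z ≠ 0) →
        (∀ z, φ (rf z) = φ z) → IsHecke φ p x → |x| ≤ 2) ↔
      ∀ (φ : ℍ → ℝ) (lam : ℝ) (x : ℕ → ℝ), IsCuspForm φ lam → (∃ z, φ z ≠ 0) →
        (∀ z, φ (rf z) = φ z) → (∀ q, q.Prime → IsHecke φ q (x q)) →
        Nat.card (NodalClassR φ {p} x) = (if 0 < x p then 2 else 1) → |x p| ≤ 2) ∧
    ((∀ (φ : ℍ → ℝ) (lam x : ℝ), IsCuspForm φ lam → (∃ z, φ z ≠ 0) → IsHecke φ p x → |x| ≤ 2) ↔
      ∀ (φ : ℍ → ℝ) (lam : ℝ) (x : ℕ → ℝ), IsCuspForm φ lam → (∃ z, φ z ≠ 0) →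
        (∀ q, q.Prime → IsHecke φ q (x q)) →
        Nat.card (NodalClass φ {p} x) = (if 0 < x p then 2 else 1) → |x p| ≤ 2) := by
  refine ⟨fun φ lam x c h hne hH hx hc =>
    ⟨partA hp h hne hH hx hc, partB hp h hne hH hx hc⟩, ?_, ⟨?_, ?_⟩, ?_, ?_⟩
  · intro φ lam x c ε h hne hH hx hc hε hpar
    have hε2 : ε * ε = 1 := by
      rcases hε with rfl | rfl <;> norm_num
    exact ⟨partAP hp h hne hH hx hc hε2 hpar, partBP hp h hne hH hx hc hε2 hpar⟩
  · intro hR φ lam x h hne hpar hH _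
    exact hR φ lam (x p) h hne hpar (hH p hp)
  · intro hR φ lam x0 h hne hpar hH
    by_contra hcon
    push Not at hcon
    have hpar1 : Par 1 φ := fun z => by rw [hpar z, one_mul]
    obtain ⟨ψ, lam', x', h1, h2, hp2, h3, h4, h5, -, h6⟩ := partBP hp (x := fun _ => x0) h hne hH
      hcon (c := (lam - 1 / 4) / (|x0| - 2) + 1) (lt_add_one _) (ε := 1) (one_mul 1) hpar1
    have h7 : (if 0 < x' p then 2 else 1) = (if (1 : ℝ) = 1 ∧ 0 < x0 then 2 else 1) := by
      simp only [true_and]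
      split_ifs with ha hb hb
      · rfl
      · exfalso; nlinarith
      · exfalso; nlinarith
      · rfl
    have h8 := hR ψ lam' x' h1 h2 (fun z => by rw [hp2 z, one_mul]) h3 (by rw [h6, h7])
    linarith
  · intro hR φ lam x h hne hH _
    exact hR φ lam (x p) h hne (hH p hp)
  · intro hR φ lam x0 h hne hH
    by_contra hcon
    push Not at hcon
    obtain ⟨ψ, lam', x', h1, h2, h3, h4, h5, -, h6⟩ := partB hp (x := fun _ => x0) h hne hH hcon
      (c := (lam - 1 / 4) / (|x0| - 2) + 1) (lt_add_one _)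
    have h7 : (if 0 < x' p then 2 else 1) = (if 0 < x0 then 2 else 1) := by
      split_ifs with ha hb hb
      · rfl
      · exfalso; nlinarith
      · exfalso; nlinarith
      · rfl
    have h8 := hR ψ lam' x' h1 h2 h3 (by rw [h6, h7])
    linarith
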