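import Pool.Agent.H63.T3.Many
import Pool.Agent.H63.T5.AllX

/-!
# Effective tempered primes for spherical cusp forms on `PGL_3`

All constants `A` depend on `n`, `σ`, `ε` only, not on the form `φ`; `cond μ = ∏ (1 + |μ_i|)` is its conductor.
`SphericalForm α μ` (in `Pool.Agent.H63.T3.Defs`) lists what is used of `φ`, all of it known.

* `(1)` For every spherical cusp form `φ` on `PGL_3` and every finite set `S` of primes there is a prime `p ∉ S` with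
  `φ_p` tempered and `p ≤ (3 C_φ ∏_{q ∈ S} q)^A`. In particular the least prime at which `φ` satisfies the Ramanujan
  conjecture is bounded by a power of the conductor.
* `(2)` Let `σ < 1/2`. If `C_φ ≥ A` then `log N ≤ A (1 + log C_φ + ∑ p^{-σ})` for all `N ≥ 1`, the sum over the primes
  `p ≤ N` with `φ_p` tempered.
* `(3)` Let `ε > 0`. If `C_φ ≥ A` and `N ≥ C_φ^A` then there are at least `(log N)^{2-ε}` primes `p ≤ N` with `φ_p`
  tempered.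
* `(4)` Let `ε > 0`. For every spherical cusp form `φ` on `PGL_3` and ALL `N ≥ N_0(φ, ε)` there are at least
  `N^{1/2-ε}` primes `p ≤ N` with `φ_p` tempered.
* `(5)`, `(6)` The statements `(1)` and `(4)` hold for every `n ≥ 2` and every spherical cusp form `φ` on `PGL_n` with
  the condition that `φ_p` is tempered replaced by the condition that `|∑_i α_{i,p}^k| < 1` for some `k ≥ 1`
  (`Pool.Agent.H63.T5.small α N` is the set of these primes up to `N`).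
-/

set_option autoImplicit false

namespace Pool.Agent.Results.MP_fa98d2_nt.EffectiveTemperedPrimes

open Pool.Agent.H63.T3

theorem result :
    (∃ A : ℝ, 1 ≤ A ∧ ∀ (α : Nat.Primes → Fin 3 → ℂ) (μ : Fin 3 → ℂ), SphericalForm α μ →
      ∀ S : Finset Nat.Primes, ∃ p : Nat.Primes, p ∉ S ∧ Tempered α p ∧
        ((p : ℕ) : ℝ) ≤ (3 * cond μ * ∏ q ∈ S, ((q : ℕ) : ℝ)) ^ A) ∧
    (∀ σ : ℝ, σ < 1 / 2 → ∃ A : ℝ, 1 ≤ A ∧ ∀ (α : Nat.Primes → Fin 3 → ℂ) (μ : Fin 3 → ℂ), SphericalForm α μ →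
      A ≤ cond μ → ∀ N : ℕ, 1 ≤ N →
        Real.log N ≤ A * (1 + Real.log (cond μ) + ∑ p ∈ temp α N, ((p : ℕ) : ℝ) ^ (-σ))) ∧
    (∀ ε : ℝ, 0 < ε → ∃ A : ℝ, 1 ≤ A ∧ ∀ (α : Nat.Primes → Fin 3 → ℂ) (μ : Fin 3 → ℂ), SphericalForm α μ →
      A ≤ cond μ → ∀ N : ℕ, cond μ ^ A ≤ N → Real.log N ^ (2 - ε) ≤ (temp α N).card) ∧
    (∀ (α : Nat.Primes → Fin 3 → ℂ) (μ : Fin 3 → ℂ), SphericalForm α μ → ∀ ε : ℝ, 0 < ε →
      ∃ N₀ : ℕ, ∀ N : ℕ, N₀ ≤ N → (N : ℝ) ^ (1 / 2 - ε) ≤ (temp α N).card) ∧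
    (∀ n : ℕ, 2 ≤ n → ∃ A : ℝ, 1 ≤ A ∧ ∀ (α : Nat.Primes → Fin n → ℂ) (μ : Fin n → ℂ), SphericalForm α μ →
      ∀ S : Finset Nat.Primes, ∃ p : Nat.Primes, p ∉ S ∧ (∃ k : ℕ, ‖∑ i, α p i ^ (k + 1)‖ < 1) ∧
        ((p : ℕ) : ℝ) ≤ (3 * cond μ * ∏ q ∈ S, ((q : ℕ) : ℝ)) ^ A) ∧
    (∀ n : ℕ, 2 ≤ n → ∀ (α : Nat.Primes → Fin n → ℂ) (μ : Fin n → ℂ), SphericalForm α μ → ∀ ε : ℝ, 0 < ε →
      ∃ N₀ : ℕ, ∀ N : ℕ, N₀ ≤ N → (N : ℝ) ^ (1 / 2 - ε) ≤ (Pool.Agent.H63.T5.small α N).card) := by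
  refine ⟨?_, SphericalForm.many, SphericalForm.count, fun α μ h ε hε => Pool.Agent.H63.T5.tempered_all h hε, SphericalForm.least,
    fun n hn α μ h ε hε => Pool.Agent.H63.T5.small_all hn h hε⟩
  obtain ⟨A, hA1, hA⟩ := SphericalForm.least 3 (by norm_num)
  refine ⟨A, hA1, fun α μ h S => ?_⟩
  obtain ⟨p, hpS, hp, hle⟩ := hA α μ h S
  exact ⟨p, hpS, h.tempered_of_small hp, hle⟩

end Pool.Agent.Results.MP_fa98d2_nt.EffectiveTemperedPrimes
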