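import Pool.Agent.H507.Cor

/-!
# Forms violating the Ramanujan bound at `p` have few nodal classes

`φ` is a real cusp form for `SL(2, ℤ)` with Laplace eigenvalue `lam` and normalised Hecke
eigenvalue `x p` at `p`, so that the Ramanujan bound at `p` is `|x p| ≤ 2` and, if it fails,
`|x p| = p ^ θ + p ^ (-θ)` with the `θ > 0` of the problem file.  For a set `S` of primes the
`S`-nodal classes are the classes of nodal domains for the equivalence relation generated by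
`SL(2, ℤ)` and by the Hecke moves `z ↦ w` at the primes of `S` with `x p * φ z * φ w > 0`.

* Part 1: there are finitely many of them, and an inequality for every divisor-closed set `A`
  of `S`-numbers on which the products `cc x m` of the numbers `X_j(|x p|)` are positive.
* Part 2: if `|x p| ≥ 2` for the primes `p` of a finite nonempty set `T`, the number `k` of
  `T`-nodal classes satisfies `k (log L) ^ (3 |T|) ≤ 4·10⁷ (10⁵ (log ∏ p) ^ 3) ^ |T| L`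
  for all `L ≥ max(lam, 10^12)`.
* Part 3: if `|x p| ≥ p ^ θ + p ^ (-θ)`, the number of `p`-nodal classes is at most
  `3.2·10⁸ p ^ (2 θ) L ^ (1 - θ / 2) (2400 (1 + log L)) ^ θ` for `L ≥ max(lam, 1.44·10⁶)`.
-/

open UpperHalfPlane
open scoped MatrixGroups
open Pool.Agent.H507

theorem Pool.Agent.Results.MP_fa98d2_nt.FewNodalClasses.result :
    (∀ (φ : ℍ → ℝ) (lam : ℝ) (S : Set ℕ) (x : ℕ → ℝ), IsCuspForm φ lam → 0 ≤ lam →
      (∀ p ∈ S, p.Prime → IsHecke φ p (x p)) →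
      Finite (NodalClass φ S x) ∧
      ∀ (A : Finset ℕ) (L : ℝ), DivClosed A → 1 ∈ A → (∀ p, p.Prime → p ∈ A → p ∈ S) →
        (∀ p, p.Prime → ∀ j, p ^ j ∈ A → 0 < X |x p| j) → lam ≤ L →
        810000 * ((∑ m ∈ A, (m : ℝ) ^ 2) * ∑ m ∈ A, ((m : ℝ) * m.divisors.card) ^ 2) ≤ L →
        Nat.card (NodalClass φ S x) * ∑ m ∈ A, cc x m ^ 2 ≤ 40000000 * KA A ^ 3 * L) ∧
    (∀ (φ : ℍ → ℝ) (lam : ℝ) (T : Finset ℕ) (x : ℕ → ℝ), IsCuspForm φ lam → 0 ≤ lam →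
      T.Nonempty → (∀ p ∈ T, p.Prime) → (∀ p ∈ T, IsHecke φ p (x p)) → (∀ p ∈ T, 2 ≤ |x p|) →
      ∀ L : ℝ, lam ≤ L → 10 ^ 12 ≤ L →
        Nat.card (NodalClass φ (T : Set ℕ) x) * Real.log L ^ (3 * T.card)
          ≤ 40000000 * (100000 * Real.log ((∏ p ∈ T, p : ℕ) : ℝ) ^ 3) ^ T.card * L) ∧
    (∀ (φ : ℍ → ℝ) (lam : ℝ) (p : ℕ) (x : ℕ → ℝ) (θ : ℝ), IsCuspForm φ lam → 0 ≤ lam →
      p.Prime → IsHecke φ p (x p) → 0 ≤ θ → (p : ℝ) ^ θ + (p : ℝ) ^ (-θ) ≤ |x p| →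
      ∀ L : ℝ, lam ≤ L → 1440000 ≤ L →
        Nat.card (NodalClass φ {p} x)
          ≤ 320000000 * (p : ℝ) ^ (2 * θ) * L ^ (1 - θ / 2) * (2400 * (1 + Real.log L)) ^ θ) :=
  ⟨fun _ _ _ _ h hl hH => ⟨finite_classes h hl hH,
      fun _ _ hA h1A hAS hX hL hL2 => card_classes h hl hH hA h1A hAS hX hL hL2⟩,
    fun _ _ T _ h hl hT0 hT hH hx _ hL hL2 => many_primes h hl T hT0 hT hH hx hL hL2,
    fun _ _ _ _ _ h hl hp hH hθ hx _ hL hL2 => one_prime_theta h hl hp hH hθ hx hL hL2⟩
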