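import Pool.Agent.H448.SV.Fac
import Pool.Agent.H448.SV.Sq

/-!
# Several cusp forms on `PGL(2)`: simultaneous violations of the Ramanujan conjecture

Let `φ_1, ..., φ_r` be cusp forms on `PGL_2` over a number field `K`, unramified outside the finite set `S` of
places, with Satake parameters `a_k(v)^{±1}` and Hecke eigenvalues `λ_k(v) = a_k(v) + a_k(v)⁻¹`.  The conjecture of
Ramanujan says `|a_k(v)| = 1`.  For ONE form the places at which it is violated have upper density at most `1/35`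
(Kim-Shahidi).  Let the symmetric powers `Sym^i φ_k`, `i ≤ 4` (Gelbart-Jacquet, Kim-Shahidi, Kim), the products
`φ_j ⊠ φ_k`, `j < k` (Ramakrishnan), and `Sym² φ_j ⊠ φ_k`, `j ≠ k` (Kim-Shahidi) be cuspidal and pairwise not
isomorphic.  For `K = ℚ`, `S = ∅` this holds for any `r` spherical cusp forms on `PGL_2` with different Laplace
eigenvalues: they are not dihedral, tetrahedral or octahedral, and no two `Sym^i φ_j`, `Sym^i φ_k` are isomorphic
(compare the parameters at the real place); the exterior square of `φ_j ⊠ φ_k` is `Sym² φ_j ⊞ Sym² φ_k`, that of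
`Sym³ φ` is `Sym⁴ φ ⊞ 1`; for the `Sym² φ_j ⊠ φ_k` see the note in `departures/helper448.md`.

* **Two forms are independent up to degree 2.**  For every real polynomial `G(x, y)` of degree at most `2` in `x` and
  in `y` the places with `|G(λ_j(v), λ_k(v))| ≥ 1` have upper density at most the square of the `L²`-norm of `G` for
  the product of two Sato-Tate measures.  This is the point: the tensor products `Sym² φ_j ⊗ Sym² φ_k` are not known
  to be automorphic, but their Rankin-Selberg products are products of the ones of the `Sym^c φ_j`, `Sym^d φ_k`,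
  `c, d ≤ 4`, and positivity only needs these.
* So the places at which BOTH of two forms violate the conjecture have upper density at most `1/100`, and the bounds
  for `|λ_j(v)| ≥ T`, `|λ_k(v)| ≥ T'` multiply; with prescribed signs the bound is `1/196`.
* All of `r` forms violate the conjecture simultaneously at a set of places of upper density at most `1/(34 r + 1)`;
  with prescribed signs the bound is `1/(44 r² + 10 r + 1)`.
* At least one of `r` forms violates the conjecture at a set of places of upper density at most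
  `((r - 1) √34 + √(r + 34))² / (1225 r)`, which is smaller than the union bound `r/35` if `r ≥ 2`, and smaller than
  `1` for `r = 35`: `35` such forms are simultaneously tempered at a set of places of positive lower density
  (the union bound gives this for `34` forms, and nothing for `35`).
-/

set_option autoImplicit false

namespace Pool.Agent.Results.MP_fa98d2_nt.SimultaneousViolations

open NumberField IsDedekindDomain Filter Topology
open scoped ComplexConjugate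

/-- The norm of the place `v`. -/
noncomputable def q {K : Type} [Field K] [NumberField K] (v : HeightOneSpectrum (𝓞 K)) : ℕ :=
  Ideal.absNorm v.asIdeal

/-- The finite places outside `S`. -/
abbrev Places {K : Type} [Field K] [NumberField K] (S : Finset (HeightOneSpectrum (𝓞 K))) :=
  {v : HeightOneSpectrum (𝓞 K) // v ∉ S}

/-- The list of representations: `1`, the `Sym^{i+1} φ_k` with `i < 4`, the `φ_j ⊠ φ_k` with `j < k` and the
`Sym² φ_j ⊠ φ_k` with `j ≠ k`. -/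
abbrev Rep (r : ℕ) := Unit ⊕ (Fin r × Fin 4) ⊕ {p : Fin r × Fin r // p.1 < p.2} ⊕
  {p : Fin r × Fin r // p.1 ≠ p.2}

/-- The degree. -/
def deg {r : ℕ} : Rep r → ℕ
  | Sum.inl _ => 1
  | Sum.inr (Sum.inl x) => x.2 + 2
  | Sum.inr (Sum.inr (Sum.inl _)) => 4
  | Sum.inr (Sum.inr (Sum.inr _)) => 6

section

variable {K : Type} [Field K] [NumberField K] {S : Finset (HeightOneSpectrum (𝓞 K))} {r : ℕ}

/-- The Satake parameters of the representations, `a_k^{±1}` being the ones of `φ_k`: for `1` it is `1`; for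
`Sym^i φ_k` they are `a_k^i, a_k^{i-2}, ..., a_k^{-i}`, for `φ_j ⊠ φ_k` they are `a_j^{±1} a_k^{±1}`, and for
`Sym² φ_j ⊠ φ_k` they are `a_j^{±2} a_k^{±1}` and `a_k^{±1}`. -/
noncomputable def par (a : Fin r → Places S → ℂ) : (ρ : Rep r) → Places S → Fin (deg ρ) → ℂ
  | Sum.inl _, _ => fun _ => 1
  | Sum.inr (Sum.inl x), v => fun l => a x.1 v ^ ((x.2 : ℤ) + 1 - 2 * (l : ℕ))
  | Sum.inr (Sum.inr (Sum.inl p)), v => fun l => ![a p.1.1 v * a p.1.2 v,
      a p.1.1 v * (a p.1.2 v)⁻¹, (a p.1.1 v)⁻¹ * a p.1.2 v, (a p.1.1 v)⁻¹ * (a p.1.2 v)⁻¹] l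
  | Sum.inr (Sum.inr (Sum.inr p)), v => fun l => ![a p.1.1 v ^ 2 * a p.1.2 v,
      a p.1.1 v ^ 2 * (a p.1.2 v)⁻¹, a p.1.2 v, (a p.1.2 v)⁻¹,
      (a p.1.1 v)⁻¹ ^ 2 * a p.1.2 v, (a p.1.1 v)⁻¹ ^ 2 * (a p.1.2 v)⁻¹] l

/-- The local factor of `L^S(s, ρ × ρ'~)` at `v`. -/
noncomputable def factor (a : Fin r → Places S → ℂ) (ρ ρ' : Rep r) (s : ℂ) (v : Places S) : ℂ :=
  ∏ l, ∏ m, (1 - par a ρ v l * conj (par a ρ' v m) * (q v.1 : ℂ) ^ (-s))⁻¹

/-- What is used of the forms `φ_k` with the Satake parameters `a_k, a_k⁻¹`. -/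
structure Forms (a : Fin r → Places S → ℂ) : Prop where
  /-- the components are unitary -/
  unitary : ∀ k v, a k v ≠ 0 ∧ (‖a k v‖ = 1 ∨ (a k v).im = 0)
  /-- the bound of Jacquet and Shalika for `Sym⁴ φ_k` -/
  bound : ∀ k v, ‖a k v‖ ^ 8 < q v.1 ∧ ‖(a k v)⁻¹‖ ^ 8 < q v.1
  /-- the Euler products of Rankin and Selberg converge for `Re s > 1` -/
  conv : ∀ (ρ ρ' : Rep r) (s : ℂ), 1 < s.re → Multipliable (factor a ρ ρ' s)
  /-- they have meromorphic continuations to neighbourhoods of `s = 1`, with a simple pole if `ρ = ρ'` and without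
  zero and pole otherwise -/
  pole : ∀ ρ ρ' : Rep r, ∃ Λ : ℂ → ℂ, MeromorphicAt Λ 1 ∧
    meromorphicOrderAt Λ 1 = ((-(if ρ = ρ' then 1 else 0) : ℤ) : WithTop ℤ) ∧
    ∀ᶠ s in 𝓝 (1 : ℂ), (1 : ℝ) < s.re → Λ s = ∏' v, factor a ρ ρ' s v

/-- The Hecke eigenvalue `λ_k(v) = a_k + a_k⁻¹`, a real number. -/
noncomputable def lam (a : Fin r → Places S → ℂ) (k : Fin r) (v : Places S) : ℝ :=
  (a k v + (a k v)⁻¹).re

/-- The set `B` of places has upper density at most `d`: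
`∑_{v ∈ B} (N v)^{-s} ≤ (d + ε) log (1 / (s - 1))` for every `ε > 0` and all real `s > 1` close to `1`. -/
def UpperDensityLe (B : Set (Places S)) (d : ℝ) : Prop :=
  ∀ ε : ℝ, 0 < ε → ∀ᶠ s : ℝ in 𝓝[>] 1,
    (Summable (B.indicator fun v => (q v.1 : ℝ) ^ (-s))) ∧
    ∑' v, B.indicator (fun v => (q v.1 : ℝ) ^ (-s)) v ≤ (d + ε) * Real.log (1 / (s - 1))

/-- The set `B` of places has lower density at least `d`:
`∑_{v ∈ B} (N v)^{-s} ≥ (d - ε) log (1 / (s - 1))` for every `ε > 0` and all real `s > 1` close to `1`. -/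
def LowerDensityGe (B : Set (Places S)) (d : ℝ) : Prop :=
  ∀ ε : ℝ, 0 < ε → ∀ᶠ s : ℝ in 𝓝[>] 1,
    (Summable (B.indicator fun v => (q v.1 : ℝ) ^ (-s))) ∧
    (d - ε) * Real.log (1 / (s - 1)) ≤ ∑' v, B.indicator (fun v => (q v.1 : ℝ) ^ (-s)) v

/-- The polynomials `U_0 = 1`, `U_1 = x`, `U_{m+2} = x U_{m+1} - U_m`: `U_m(λ_k(v))` is the trace of `Sym^m φ_k`
at `v`, and the `U_m` are orthonormal for the Sato-Tate measure. -/
def U : ℕ → ℝ → ℝ
  | 0, _ => 1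
  | 1, x => x
  | m + 2, x => x * U (m + 1) x - U m x

/-- `T² + (T² - 1)² + (T³ - 2 T)² + (T⁴ - 3 T² + 1)²`. -/
def W (T : ℝ) : ℝ := T ^ 2 + (T ^ 2 - 1) ^ 2 + (T ^ 3 - 2 * T) ^ 2 + (T ^ 4 - 3 * T ^ 2 + 1) ^ 2

theorem U2 (x : ℝ) : U 2 x = x ^ 2 - 1 := by
  simp only [U]; ring

theorem U3 (x : ℝ) : U 3 x = x ^ 3 - 2 * x := by
  simp only [U]; ring

theorem U4 (x : ℝ) : U 4 x = x ^ 4 - 3 * x ^ 2 + 1 := by
  simp only [U]; ring

theorem q_gt (v : Places S) : 1 < q v.1 := by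
  unfold q
  have h1 := Ideal.absNorm_ne_zero_of_nonZeroDivisors
    ⟨v.1.asIdeal, mem_nonZeroDivisors_of_ne_zero v.1.ne_bot⟩
  have h2 : Ideal.absNorm v.1.asIdeal ≠ 1 := fun h =>
    v.1.isPrime.ne_top (Ideal.absNorm_eq_one_iff.1 h)
  simp only at h1
  omega

theorem lam_eq {a : Fin r → Places S → ℂ} (h : Forms a) (k : Fin r) (v : Places S) :
    a k v + (a k v)⁻¹ = (lam a k v : ℂ) := by
  unfold lam
  apply Complex.ext
  · simp
  · rw [Complex.ofReal_im, Complex.add_im, Complex.inv_im]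
    rcases (h.unitary k v).2 with h1 | h1
    · rw [Complex.normSq_eq_norm_sq, h1]
      ring
    · rw [h1]
      simp

/-- a violation gives a large eigenvalue -/
theorem two_le {a : Fin r → Places S → ℂ} (h : Forms a) {k : Fin r} {v : Places S}
    (hv : ‖a k v‖ ≠ 1) : 2 ≤ |lam a k v| := by
  obtain ⟨h0, h1⟩ := h.unitary k v
  have h2 : (a k v).im = 0 := h1.resolve_left hv
  have h3 : a k v = ((a k v).re : ℂ) := Complex.ext (by simp) (by simp [h2])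
  set x := (a k v).re with hx
  have hx0 : x ≠ 0 := by
    intro h4
    rw [h4] at h3
    exact h0 (by rw [h3]; simp)
  have h5 : lam a k v = x + x⁻¹ := by
    unfold lam
    rw [h3, ← Complex.ofReal_inv, ← Complex.ofReal_add, Complex.ofReal_re]
  have h6 : x ^ 2 * lam a k v ^ 2 = (x ^ 2 + 1) ^ 2 := by
    rw [h5]
    field_simp
  have h7 : 4 ≤ lam a k v ^ 2 := by
    have h8 : 0 < x ^ 2 := by positivity
    nlinarith [sq_nonneg (x ^ 2 - 1)]
  have h9 : (2 : ℝ) ^ 2 ≤ |lam a k v| ^ 2 := by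
    rw [sq_abs]
    linarith
  exact (sq_le_sq₀ (by norm_num) (abs_nonneg _)).1 h9

/-- the trace of `Sym^c` -/
theorem tr_pow {a : Fin r → Places S → ℂ} (h : Forms a) (k : Fin r) (v : Places S) (c : Fin 5) :
    ∑ l : Fin ((c : ℕ) + 1), a k v ^ (((c : ℕ) : ℤ) - 2 * ((l : ℕ) : ℤ)) =
      ((U c (lam a k v) : ℝ) : ℂ) := by
  have h0 := (h.unitary k v).1
  have h1 := lam_eq h k v
  set t := a k v with ht
  fin_cases c
  · change ∑ l : Fin 1, t ^ (((0 : ℕ) : ℤ) - 2 * ((l : ℕ) : ℤ)) = ((1 : ℝ) : ℂ)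
    simp
  · change ∑ l : Fin 2, t ^ (((1 : ℕ) : ℤ) - 2 * ((l : ℕ) : ℤ)) = ((lam a k v : ℝ) : ℂ)
    rw [← h1, Fin.sum_univ_two]
    norm_num
  · change ∑ l : Fin 3, t ^ (((2 : ℕ) : ℤ) - 2 * ((l : ℕ) : ℤ)) = ((U 2 (lam a k v) : ℝ) : ℂ)
    rw [U2]
    push_cast
    rw [← h1, Fin.sum_univ_three]
    norm_num
    field_simp
    ring
  · change ∑ l : Fin 4, t ^ (((3 : ℕ) : ℤ) - 2 * ((l : ℕ) : ℤ)) = ((U 3 (lam a k v) : ℝ) : ℂ)
    rw [U3]
    push_cast
    rw [← h1, Fin.sum_univ_four]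
    norm_num
    field_simp
    ring
  · change ∑ l : Fin 5, t ^ (((4 : ℕ) : ℤ) - 2 * ((l : ℕ) : ℤ)) = ((U 4 (lam a k v) : ℝ) : ℂ)
    rw [U4]
    push_cast
    rw [← h1, Fin.sum_univ_five]
    norm_num
    field_simp
    ring

/-- `Sym^c φ_k` in the list -/
def sy (k : Fin r) (c : Fin 5) : Rep r :=
  Fin.cases (Sum.inl ()) (fun i => Sum.inr (Sum.inl (k, i))) c

theorem prod_par {M : Type*} [CommMonoid M] (a : Fin r → Places S → ℂ) (k : Fin r) (c : Fin 5)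
    (v : Places S) (f : ℂ → M) :
    ∏ l, f (par a (sy k c) v l) =
      ∏ l : Fin ((c : ℕ) + 1), f (a k v ^ (((c : ℕ) : ℤ) - 2 * ((l : ℕ) : ℤ))) := by
  refine Fin.cases ?_ (fun i => ?_) c
  · change ∏ l : Fin 1, f 1 = ∏ l : Fin 1, f (a k v ^ (((0 : ℕ) : ℤ) - 2 * ((l : ℕ) : ℤ)))
    simp
  · change ∏ l : Fin ((i : ℕ) + 2), f (a k v ^ (((i : ℕ) : ℤ) + 1 - 2 * ((l : ℕ) : ℤ))) =
      ∏ l : Fin ((i : ℕ) + 1 + 1), f (a k v ^ (((((i : ℕ) + 1 : ℕ)) : ℤ) - 2 * ((l : ℕ) : ℤ)))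
    push_cast
    rfl

theorem F_eq (a : Fin r → Places S → ℂ) (j k : Fin r) (c d : Fin 5) (s : ℂ) :
    Pool.Agent.H448.SV.F (fun v : Places S => q v.1) (a j) (a k) c d s =
      factor a (sy j c) (sy k d) s := by
  funext v
  unfold factor Pool.Agent.H448.SV.F
  rw [prod_par a j c v fun z => ∏ m, (1 - z * conj (par a (sy k d) v m) *
    (q v.1 : ℂ) ^ (-s))⁻¹]
  refine Finset.prod_congr rfl fun l _ => ?_
  exact (prod_par a k d v fun z => (1 - a j v ^ (((c : ℕ) : ℤ) - 2 * ((l : ℕ) : ℤ)) * conj z *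
    (q v.1 : ℂ) ^ (-s))⁻¹).symm

theorem sy_eq {j k : Fin r} (hjk : j ≠ k) (c d : Fin 5) :
    sy j c = sy k d ↔ c = 0 ∧ d = 0 := by
  refine Fin.cases ?_ (fun i => ?_) c <;> refine Fin.cases ?_ (fun i' => ?_) d
  · simp [sy]
  · simp [sy]
  · simp [sy]
  · simp only [sy, Fin.cases_succ, Sum.inr.injEq, Sum.inl.injEq, Prod.mk.injEq, Fin.succ_ne_zero,
      and_self, iff_false, not_and]
    exact fun h => absurd h hjk

/-- **Two forms.** -/
theorem pair {a : Fin r → Places S → ℂ} (h : Forms a) {j k : Fin r} (hjk : j ≠ k)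
    (c : Fin 3 → Fin 3 → ℝ) {B : Set (Places S)} {X : ℝ} (hX : 0 < X)
    (hB : ∀ v ∈ B, X ≤ |∑ m, ∑ n, c m n * (U m (lam a j v) * U n (lam a k v))|) :
    UpperDensityLe B ((∑ m, ∑ n, c m n ^ 2) / X ^ 2) := by
  classical
  have hq0 : ∀ v : Places S, (1 : ℝ) < q v.1 := fun v => by exact_mod_cast q_gt v
  obtain ⟨h1, h2⟩ := Pool.Agent.H448.SV.nine (q := fun v : Places S => q v.1) (a := a j) (b := a k)
    (h.unitary j) (h.unitary k) (fun c d s hs => by rw [F_eq]; exact h.conv _ _ s hs)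
    (fun c d => by
      obtain ⟨Λ, e1, e2, e3⟩ := h.pole (sy j c) (sy k d)
      refine ⟨Λ, e1, ?_, ?_⟩
      · rw [e2]
        by_cases h3 : c = 0 ∧ d = 0
        · rw [if_pos h3, if_pos ((sy_eq hjk c d).2 h3)]
        · rw [if_neg h3, if_neg fun h4 => h3 ((sy_eq hjk c d).1 h4)]
      · filter_upwards [e3] with s h5 h6
        rw [h5 h6, F_eq])
  have hbd : ∀ (i : Fin 3 × Fin 3) (v : Places S) (l),
      ‖Pool.Agent.H448.SV.A (a j) (a k) i v l‖ ^ 2 < q v.1 := by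
    intro i v l
    have hz : ∀ (z : ℝ), 0 < z → z ^ 8 < q v.1 → ∀ j : ℕ, j ≤ 2 → (z ^ j) ^ 4 < q v.1 := by
      intro z hz hz4 j hj
      rw [← pow_mul]
      rcases le_or_gt z 1 with h6 | h6
      · exact (pow_le_one₀ hz.le h6).trans_lt (hq0 v)
      · exact (pow_le_pow_right₀ h6.le (by omega)).trans_lt hz4
    have key : ∀ (k : Fin r) (n : ℤ), n.natAbs ≤ 2 → ‖a k v ^ n‖ ^ 4 < q v.1 := by
      intro k n hn
      obtain ⟨h1, h2⟩ := h.bound k v
      have h0 : 0 < ‖a k v‖ := norm_pos_iff.2 (h.unitary k v).1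
      rw [norm_inv] at h2
      rw [norm_zpow]
      rcases Int.natAbs_eq n with h6 | h6
      · rw [h6, zpow_natCast]
        exact hz _ h0 h1 _ hn
      · rw [h6, zpow_neg, zpow_natCast, ← inv_pow]
        exact hz _ (inv_pos.2 h0) h2 _ hn
    unfold Pool.Agent.H448.SV.A
    set e := (finProdFinEquiv (m := (i.1 : ℕ) + 1) (n := (i.2 : ℕ) + 1)).symm l with he
    have k1 := key j (((i.1 : ℕ) : ℤ) - 2 * ((e.1 : ℕ) : ℤ)) (by
      have := e.1.2
      have := i.1.2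
      omega)
    have k2 := key k (((i.2 : ℕ) : ℤ) - 2 * ((e.2 : ℕ) : ℤ)) (by
      have := e.2.2
      have := i.2.2
      omega)
    rw [norm_mul, mul_pow]
    nlinarith [sq_nonneg (‖a j v ^ (((i.1 : ℕ) : ℤ) - 2 * ((e.1 : ℕ) : ℤ))‖ ^ 2 -
      ‖a k v ^ (((i.2 : ℕ) : ℤ) - 2 * ((e.2 : ℕ) : ℤ))‖ ^ 2)]
  have h3 := Pool.Agent.X289.RSD.density (q := fun v : Places S => q v.1) (q_gt)
    (A := fun i v => Pool.Agent.H448.SV.A (a j) (a k) i v) hbd (fun i i' s hs => h1 i i' s hs)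
    (e := fun i i' => if i = i' then 1 else 0) h2 (fun i => c i.1 i.2) (B := B) hX fun v hv => by
      have e1 : ∑ i : Fin 3 × Fin 3, ((c i.1 i.2 : ℝ) : ℂ) *
          ∑ l, Pool.Agent.H448.SV.A (a j) (a k) i v l =
          ((∑ m, ∑ n, c m n * (U m (lam a j v) * U n (lam a k v)) : ℝ) : ℂ) := by
        rw [Fintype.sum_prod_type]
        push_cast
        refine Finset.sum_congr rfl fun m _ => Finset.sum_congr rfl fun n _ => ?_
        rw [Pool.Agent.H448.SV.sum_A]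
        have t1 := tr_pow h j v ⟨m, by omega⟩
        have t2 := tr_pow h k v ⟨n, by omega⟩
        simp only at t1 t2 ⊢
        rw [t1, t2]
      rw [e1, Complex.norm_real, Real.norm_eq_abs]
      exact hB v hv
  have e2 : ∑ i : Fin 3 × Fin 3, ∑ i' : Fin 3 × Fin 3,
      c i.1 i.2 * c i'.1 i'.2 * ((if i = i' then 1 else 0 : ℤ) : ℝ) =
      ∑ m, ∑ n, c m n ^ 2 := by
    rw [show ∑ m, ∑ n, c m n ^ 2 = ∑ i : Fin 3 × Fin 3, c i.1 i.2 ^ 2 from
      (Fintype.sum_prod_type' fun m n => c m n ^ 2).symm]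
    refine Finset.sum_congr rfl fun i _ => ?_
    rw [Finset.sum_eq_single i]
    · simp
      ring
    · intro i' _ hne
      rw [if_neg (Ne.symm hne)]
      simp
    · intro hne
      exact absurd (Finset.mem_univ _) hne
  rw [e2] at h3
  exact h3

/-- products of functions of one eigenvalue -/
theorem pair_mul {a : Fin r → Places S → ℂ} (h : Forms a) {j k : Fin r} (hjk : j ≠ k)
    (f g : Fin 3 → ℝ) {B : Set (Places S)} {X Y : ℝ} (hX : 0 < X) (hY : 0 < Y)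
    (hB : ∀ v ∈ B, X ≤ ∑ m, f m * U m (lam a j v) ∧ Y ≤ ∑ n, g n * U n (lam a k v)) :
    UpperDensityLe B ((∑ m, f m ^ 2) * (∑ n, g n ^ 2) / (X * Y) ^ 2) := by
  have h1 := pair h hjk (fun m n => f m * g n) (B := B) (mul_pos hX hY) fun v hv => by
    obtain ⟨h2, h3⟩ := hB v hv
    have e1 : ∑ m, ∑ n, f m * g n * (U m (lam a j v) * U n (lam a k v)) =
        (∑ m, f m * U m (lam a j v)) * ∑ n, g n * U n (lam a k v) := by
      rw [Finset.sum_mul_sum]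
      exact Finset.sum_congr rfl fun m _ => Finset.sum_congr rfl fun n _ => by ring
    rw [e1]
    exact (mul_le_mul h2 h3 hY.le (hX.le.trans h2)).trans (le_abs_self _)
  have e2 : ∑ m, ∑ n, (f m * g n) ^ 2 = (∑ m, f m ^ 2) * ∑ n, g n ^ 2 := by
    rw [Finset.sum_mul_sum]
    exact Finset.sum_congr rfl fun m _ => Finset.sum_congr rfl fun n _ => by ring
  rw [e2] at h1
  exact h1

theorem pair_large {a : Fin r → Places S → ℂ} (h : Forms a) {j k : Fin r} (hjk : j ≠ k)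
    {T T' : ℝ} (hT : 1 ≤ T) (hT' : 1 ≤ T') {B : Set (Places S)}
    (hB : ∀ v ∈ B, T ≤ |lam a j v| ∧ T' ≤ |lam a k v|) :
    UpperDensityLe B (1 / ((1 + (T ^ 2 - 1) ^ 2) * (1 + (T' ^ 2 - 1) ^ 2))) := by
  have key : ∀ T : ℝ, 1 ≤ T → ∀ x : ℝ, T ≤ |x| → 1 + (T ^ 2 - 1) ^ 2 ≤
      ∑ m : Fin 3, (![1, 0, T ^ 2 - 1] : Fin 3 → ℝ) m * U m x := by
    intro T hT x hx
    have h1 : T ^ 2 ≤ x ^ 2 := by
      rw [← sq_abs x]
      exact pow_le_pow_left₀ (by linarith) hx 2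
    have h2 : 0 ≤ T ^ 2 - 1 := by nlinarith
    rw [Fin.sum_univ_three]
    change 1 + (T ^ 2 - 1) ^ 2 ≤ 1 * 1 + 0 * x + (T ^ 2 - 1) * U 2 x
    rw [U2]
    nlinarith
  have hsq : ∀ T : ℝ, ∑ m : Fin 3, (![1, 0, T ^ 2 - 1] : Fin 3 → ℝ) m ^ 2 =
      1 + (T ^ 2 - 1) ^ 2 := by
    intro T
    rw [Fin.sum_univ_three]
    change (1 : ℝ) ^ 2 + 0 ^ 2 + (T ^ 2 - 1) ^ 2 = _
    ring
  have h1 := pair_mul h hjk (![1, 0, T ^ 2 - 1]) (![1, 0, T' ^ 2 - 1]) (B := B)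
    (X := 1 + (T ^ 2 - 1) ^ 2) (Y := 1 + (T' ^ 2 - 1) ^ 2) (by positivity) (by positivity)
    fun v hv => ⟨key T hT _ (hB v hv).1, key T' hT' _ (hB v hv).2⟩
  rw [hsq, hsq] at h1
  have e : (1 + (T ^ 2 - 1) ^ 2) * (1 + (T' ^ 2 - 1) ^ 2) /
      ((1 + (T ^ 2 - 1) ^ 2) * (1 + (T' ^ 2 - 1) ^ 2)) ^ 2 =
      1 / ((1 + (T ^ 2 - 1) ^ 2) * (1 + (T' ^ 2 - 1) ^ 2)) := by
    have : 0 < (1 + (T ^ 2 - 1) ^ 2) * (1 + (T' ^ 2 - 1) ^ 2) := by positivity
    field_simp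
  rw [e] at h1
  exact h1

theorem pair_signs {a : Fin r → Places S → ℂ} (h : Forms a) {j k : Fin r} (hjk : j ≠ k)
    {T T' ε ε' : ℝ} (hT : 1 ≤ T) (hT' : 1 ≤ T') (hε : ε = 1 ∨ ε = -1) (hε' : ε' = 1 ∨ ε' = -1)
    {B : Set (Places S)} (hB : ∀ v ∈ B, T ≤ ε * lam a j v ∧ T' ≤ ε' * lam a k v) :
    UpperDensityLe B (1 / ((1 + T ^ 2 + (T ^ 2 - 1) ^ 2) * (1 + T' ^ 2 + (T' ^ 2 - 1) ^ 2))) := by
  have hee : ∀ ε : ℝ, (ε = 1 ∨ ε = -1) → ε ^ 2 = 1 := fun ε h => by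
    rcases h with h | h <;> rw [h] <;> norm_num
  have key : ∀ T : ℝ, 1 ≤ T → ∀ ε : ℝ, (ε = 1 ∨ ε = -1) → ∀ x : ℝ, T ≤ ε * x →
      1 + T ^ 2 + (T ^ 2 - 1) ^ 2 ≤
      ∑ m : Fin 3, (![1, ε * T, T ^ 2 - 1] : Fin 3 → ℝ) m * U m x := by
    intro T hT ε hε x hx
    have h1 : T ^ 2 ≤ x ^ 2 := by
      have h3 : (ε * x) ^ 2 = x ^ 2 := by rw [mul_pow, hee ε hε, one_mul]
      rw [← h3]
      exact pow_le_pow_left₀ (by linarith) hx 2
    have h2 : 0 ≤ T ^ 2 - 1 := by nlinarith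
    rw [Fin.sum_univ_three]
    change 1 + T ^ 2 + (T ^ 2 - 1) ^ 2 ≤ 1 * 1 + ε * T * x + (T ^ 2 - 1) * U 2 x
    rw [U2]
    nlinarith [mul_le_mul_of_nonneg_left hx (show 0 ≤ T by linarith)]
  have hsq : ∀ T ε : ℝ, (ε = 1 ∨ ε = -1) → ∑ m : Fin 3, (![1, ε * T, T ^ 2 - 1] : Fin 3 → ℝ) m ^ 2 =
      1 + T ^ 2 + (T ^ 2 - 1) ^ 2 := by
    intro T ε hε
    rw [Fin.sum_univ_three]
    change (1 : ℝ) ^ 2 + (ε * T) ^ 2 + (T ^ 2 - 1) ^ 2 = _
    rw [mul_pow, hee ε hε]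
    ring
  have h1 := pair_mul h hjk (![1, ε * T, T ^ 2 - 1]) (![1, ε' * T', T' ^ 2 - 1]) (B := B)
    (X := 1 + T ^ 2 + (T ^ 2 - 1) ^ 2) (Y := 1 + T' ^ 2 + (T' ^ 2 - 1) ^ 2) (by positivity)
    (by positivity) fun v hv => ⟨key T hT ε hε _ (hB v hv).1, key T' hT' ε' hε' _ (hB v hv).2⟩
  rw [hsq T ε hε, hsq T' ε' hε'] at h1
  have e : (1 + T ^ 2 + (T ^ 2 - 1) ^ 2) * (1 + T' ^ 2 + (T' ^ 2 - 1) ^ 2) /
      ((1 + T ^ 2 + (T ^ 2 - 1) ^ 2) * (1 + T' ^ 2 + (T' ^ 2 - 1) ^ 2)) ^ 2 =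
      1 / ((1 + T ^ 2 + (T ^ 2 - 1) ^ 2) * (1 + T' ^ 2 + (T' ^ 2 - 1) ^ 2)) := by
    have : 0 < (1 + T ^ 2 + (T ^ 2 - 1) ^ 2) * (1 + T' ^ 2 + (T' ^ 2 - 1) ^ 2) := by positivity
    field_simp
  rw [e] at h1
  exact h1

theorem tr_one (a : Fin r → Places S → ℂ) (u : Unit) (v : Places S) :
    ∑ l, par a (Sum.inl u) v l = 1 := by
  change ∑ _l : Fin 1, (1 : ℂ) = 1
  simp

theorem tr_sym {a : Fin r → Places S → ℂ} (h : Forms a) (x : Fin r × Fin 4) (v : Places S) :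
    ∑ l, par a (Sum.inr (Sum.inl x)) v l = (U (x.2 + 1) (lam a x.1 v) : ℂ) := by
  obtain ⟨k, i⟩ := x
  have h1 := tr_pow h k v i.succ
  change ∑ l : Fin ((i : ℕ) + 2), a k v ^ (((i : ℕ) : ℤ) + 1 - 2 * ((l : ℕ) : ℤ)) = _
  rw [Fin.val_succ] at h1
  rw [← h1]
  push_cast
  rfl

theorem tr_prod {a : Fin r → Places S → ℂ} (h : Forms a)
    (p : {p : Fin r × Fin r // p.1 < p.2}) (v : Places S) :
    ∑ l, par a (Sum.inr (Sum.inr (Sum.inl p))) v l =
      ((lam a p.1.1 v * lam a p.1.2 v : ℝ) : ℂ) := by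
  push_cast
  rw [← lam_eq h, ← lam_eq h]
  change ∑ l : Fin 4, (![a p.1.1 v * a p.1.2 v, a p.1.1 v * (a p.1.2 v)⁻¹,
      (a p.1.1 v)⁻¹ * a p.1.2 v, (a p.1.1 v)⁻¹ * (a p.1.2 v)⁻¹] : Fin 4 → ℂ) l = _
  rw [Fin.sum_univ_four]
  simp
  ring

theorem tr_mix {a : Fin r → Places S → ℂ} (h : Forms a)
    (p : {p : Fin r × Fin r // p.1 ≠ p.2}) (v : Places S) :
    ∑ l, par a (Sum.inr (Sum.inr (Sum.inr p))) v l =
      (((lam a p.1.1 v ^ 2 - 1) * lam a p.1.2 v : ℝ) : ℂ) := by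
  have h0 := (h.unitary p.1.1 v).1
  push_cast
  rw [← lam_eq h, ← lam_eq h]
  change ∑ l : Fin 6, (![a p.1.1 v ^ 2 * a p.1.2 v,
      a p.1.1 v ^ 2 * (a p.1.2 v)⁻¹, a p.1.2 v, (a p.1.2 v)⁻¹,
      (a p.1.1 v)⁻¹ ^ 2 * a p.1.2 v, (a p.1.1 v)⁻¹ ^ 2 * (a p.1.2 v)⁻¹] : Fin 6 → ℂ) l = _
  rw [Fin.sum_univ_six]
  change a p.1.1 v ^ 2 * a p.1.2 v + a p.1.1 v ^ 2 * (a p.1.2 v)⁻¹ + a p.1.2 v + (a p.1.2 v)⁻¹ +
      (a p.1.1 v)⁻¹ ^ 2 * a p.1.2 v + (a p.1.1 v)⁻¹ ^ 2 * (a p.1.2 v)⁻¹ = _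
  have e : (a p.1.1 v) * (a p.1.1 v)⁻¹ = 1 := mul_inv_cancel₀ h0
  linear_combination (-2 * (a p.1.2 v + (a p.1.2 v)⁻¹)) * e

theorem par_bound {a : Fin r → Places S → ℂ} (h : Forms a) (ρ : Rep r) (v : Places S) (l) :
    ‖par a ρ v l‖ ^ 2 < q v.1 := by
  have hq : (1 : ℝ) < q v.1 := by exact_mod_cast q_gt v
  have hz : ∀ (z : ℝ), 0 < z → z ^ 8 < q v.1 → ∀ j : ℕ, j ≤ 4 → (z ^ j) ^ 2 < q v.1 := by
    intro z hz hz4 j hj
    rw [← pow_mul]
    rcases le_or_gt z 1 with h6 | h6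
    · exact (pow_le_one₀ hz.le h6).trans_lt hq
    · exact (pow_le_pow_right₀ h6.le (by omega)).trans_lt hz4
  have key : ∀ (k : Fin r) (n : ℤ), n.natAbs ≤ 4 → ‖a k v ^ n‖ ^ 2 < q v.1 := by
    intro k n hn
    obtain ⟨h1, h2⟩ := h.bound k v
    have h0 : 0 < ‖a k v‖ := norm_pos_iff.2 (h.unitary k v).1
    rw [norm_inv] at h2
    rw [norm_zpow]
    rcases Int.natAbs_eq n with h6 | h6
    · rw [h6, zpow_natCast]
      exact hz _ h0 h1 _ hn
    · rw [h6, zpow_neg, zpow_natCast, ← inv_pow]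
      exact hz _ (inv_pos.2 h0) h2 _ hn
  -- the fourth powers of the parameter of `φ_k`, its inverse, and their squares are less than `q`
  have key4 : ∀ (k : Fin r) (m : ℕ), m ≤ 2 →
      (‖a k v ^ m‖ ^ 2) ^ 2 < q v.1 ∧ (‖(a k v)⁻¹ ^ m‖ ^ 2) ^ 2 < q v.1 := by
    intro k m hm
    obtain ⟨h1, h2⟩ := h.bound k v
    have h0 : 0 < ‖a k v‖ := norm_pos_iff.2 (h.unitary k v).1
    have h00 : 0 < ‖(a k v)⁻¹‖ := norm_pos_iff.2 (inv_ne_zero (h.unitary k v).1)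
    rw [norm_pow, norm_pow, ← pow_mul ‖a k v‖ m 2, ← pow_mul ‖(a k v)⁻¹‖ m 2]
    exact ⟨hz _ h0 h1 (m * 2) (by omega), hz _ h00 h2 (m * 2) (by omega)⟩
  have hmul : ∀ x y : ℂ, (‖x‖ ^ 2) ^ 2 < q v.1 → (‖y‖ ^ 2) ^ 2 < q v.1 →
      ‖x * y‖ ^ 2 < q v.1 := by
    intro x y hx hy
    rw [norm_mul, mul_pow]
    nlinarith [sq_nonneg (‖x‖ ^ 2 - ‖y‖ ^ 2), sq_nonneg ‖x‖, sq_nonneg ‖y‖]
  rcases ρ with u | x | p | p
  · change ‖(1 : ℂ)‖ ^ 2 < _
    rw [norm_one, one_pow]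
    exact hq
  · obtain ⟨k, i⟩ := x
    change ‖a k v ^ ((i : ℤ) + 1 - 2 * ((l : ℕ) : ℤ))‖ ^ 2 < _
    refine key _ _ ?_
    have h1 := i.2
    have h2 : (l : ℕ) < (i : ℕ) + 2 := l.2
    omega
  · obtain ⟨k1, k1'⟩ := key4 p.1.1 1 (by norm_num)
    obtain ⟨k2, k2'⟩ := key4 p.1.2 1 (by norm_num)
    rw [pow_one] at k1 k1' k2 k2'
    change ‖(![a p.1.1 v * a p.1.2 v, a p.1.1 v * (a p.1.2 v)⁻¹,
      (a p.1.1 v)⁻¹ * a p.1.2 v, (a p.1.1 v)⁻¹ * (a p.1.2 v)⁻¹] : Fin 4 → ℂ) l‖ ^ 2 < _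
    have hall : ∀ l : Fin 4, ‖(![a p.1.1 v * a p.1.2 v, a p.1.1 v * (a p.1.2 v)⁻¹,
      (a p.1.1 v)⁻¹ * a p.1.2 v, (a p.1.1 v)⁻¹ * (a p.1.2 v)⁻¹] : Fin 4 → ℂ) l‖ ^ 2 < q v.1 := by
      intro l
      fin_cases l
      · exact hmul _ _ k1 k2
      · exact hmul _ _ k1 k2'
      · exact hmul _ _ k1' k2
      · exact hmul _ _ k1' k2'
    exact hall l
  · obtain ⟨k1, k1'⟩ := key4 p.1.1 2 (by norm_num)
    obtain ⟨k2, k2'⟩ := key4 p.1.2 1 (by norm_num)
    rw [pow_one] at k2 k2'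
    have k3 : ‖a p.1.2 v‖ ^ 2 < q v.1 := by
      have := key p.1.2 1 (by norm_num)
      rwa [zpow_one] at this
    have k3' : ‖(a p.1.2 v)⁻¹‖ ^ 2 < q v.1 := by
      have := key p.1.2 (-1) (by norm_num)
      rwa [zpow_neg, zpow_one] at this
    change ‖(![a p.1.1 v ^ 2 * a p.1.2 v,
      a p.1.1 v ^ 2 * (a p.1.2 v)⁻¹, a p.1.2 v, (a p.1.2 v)⁻¹,
      (a p.1.1 v)⁻¹ ^ 2 * a p.1.2 v, (a p.1.1 v)⁻¹ ^ 2 * (a p.1.2 v)⁻¹] : Fin 6 → ℂ) l‖ ^ 2 < _
    have hall : ∀ l : Fin 6, ‖(![a p.1.1 v ^ 2 * a p.1.2 v,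
      a p.1.1 v ^ 2 * (a p.1.2 v)⁻¹, a p.1.2 v, (a p.1.2 v)⁻¹,
      (a p.1.1 v)⁻¹ ^ 2 * a p.1.2 v, (a p.1.1 v)⁻¹ ^ 2 * (a p.1.2 v)⁻¹] : Fin 6 → ℂ) l‖ ^ 2 <
        q v.1 := by
      intro l
      fin_cases l
      · exact hmul _ _ k1 k2
      · exact hmul _ _ k1 k2'
      · exact k3
      · exact k3'
      · exact hmul _ _ k1' k2
      · exact hmul _ _ k1' k2'
    exact hall l

theorem quad_form (C : Rep r → ℝ) :
    ∑ ρ : Rep r, ∑ ρ' : Rep r, C ρ * C ρ' * ((if ρ = ρ' then 1 else 0 : ℤ) : ℝ) =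
      ∑ ρ, C ρ ^ 2 := by
  refine Finset.sum_congr rfl fun ρ _ => ?_
  rw [Finset.sum_eq_single ρ]
  · simp
    ring
  · intro ρ' _ hne
    rw [if_neg (Ne.symm hne)]
    simp
  · intro hne
    exact absurd (Finset.mem_univ _) hne

/-- the coefficients -/
def co (c₀ : ℝ) (c : Fin r → Fin 4 → ℝ) (d d' : Fin r → Fin r → ℝ) : Rep r → ℝ :=
  Sum.elim (fun _ => c₀) (Sum.elim (fun x => c x.1 x.2)
    (Sum.elim (fun p => d p.1.1 p.1.2) fun p => d' p.1.1 p.1.2))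

/-- the value at `v` -/
theorem val {a : Fin r → Places S → ℂ} (h : Forms a) (c₀ : ℝ) (c : Fin r → Fin 4 → ℝ)
    (d d' : Fin r → Fin r → ℝ) (v : Places S) :
    ∑ ρ, (co c₀ c d d' ρ : ℂ) * ∑ l, par a ρ v l =
      ((c₀ + ∑ k, ∑ i : Fin 4, c k i * U (i + 1) (lam a k v) +
        ∑ p : {p : Fin r × Fin r // p.1 < p.2}, d p.1.1 p.1.2 * (lam a p.1.1 v * lam a p.1.2 v) +
        ∑ p : {p : Fin r × Fin r // p.1 ≠ p.2}, d' p.1.1 p.1.2 *
          ((lam a p.1.1 v ^ 2 - 1) * lam a p.1.2 v) : ℝ) : ℂ) := by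
  rw [Fintype.sum_sum_type, Fintype.sum_sum_type, Fintype.sum_sum_type]
  simp only [tr_one, tr_sym h, tr_prod h, tr_mix h, co, Sum.elim_inl, Sum.elim_inr]
  rw [Fintype.sum_prod_type]
  push_cast
  simp only [Finset.univ_unique, Finset.sum_singleton, mul_one]
  ring

theorem norm_co (c₀ : ℝ) (c : Fin r → Fin 4 → ℝ) (d d' : Fin r → Fin r → ℝ) :
    ∑ ρ, co c₀ c d d' ρ ^ 2 = c₀ ^ 2 + ∑ k, ∑ i, c k i ^ 2 +
        ∑ p : {p : Fin r × Fin r // p.1 < p.2}, d p.1.1 p.1.2 ^ 2 +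
        ∑ p : {p : Fin r × Fin r // p.1 ≠ p.2}, d' p.1.1 p.1.2 ^ 2 := by
  rw [Fintype.sum_sum_type, Fintype.sum_sum_type, Fintype.sum_sum_type, Fintype.sum_prod_type]
  simp only [co, Sum.elim_inl, Sum.elim_inr, Finset.univ_unique, Finset.sum_singleton]
  ring

/-- the density bound -/
theorem dens {a : Fin r → Places S → ℂ} (h : Forms a) (c₀ : ℝ) (c : Fin r → Fin 4 → ℝ)
    (d d' : Fin r → Fin r → ℝ) {B : Set (Places S)} {X : ℝ} (hX : 0 < X)
    (hB : ∀ v ∈ B, X ≤ c₀ + ∑ k, ∑ i : Fin 4, c k i * U (i + 1) (lam a k v) +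
      ∑ p : {p : Fin r × Fin r // p.1 < p.2}, d p.1.1 p.1.2 * (lam a p.1.1 v * lam a p.1.2 v) +
      ∑ p : {p : Fin r × Fin r // p.1 ≠ p.2}, d' p.1.1 p.1.2 *
          ((lam a p.1.1 v ^ 2 - 1) * lam a p.1.2 v)) :
    UpperDensityLe B ((c₀ ^ 2 + ∑ k, ∑ i, c k i ^ 2 +
      ∑ p : {p : Fin r × Fin r // p.1 < p.2}, d p.1.1 p.1.2 ^ 2 +
      ∑ p : {p : Fin r × Fin r // p.1 ≠ p.2}, d' p.1.1 p.1.2 ^ 2) / X ^ 2) := by
  classical
  have h4 := Pool.Agent.X289.RSD.density (q := fun v : Places S => q v.1) (q_gt)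
    (A := fun ρ v => par a ρ v) (par_bound h)
    (fun ρ ρ' s hs => h.conv ρ ρ' s (by simpa using hs))
    (e := fun ρ ρ' => if ρ = ρ' then 1 else 0) h.pole (co c₀ c d d') (B := B) hX fun v hv => by
      rw [val h, Complex.norm_real]
      exact (hB v hv).trans (le_abs_self _)
  rw [quad_form, norm_co] at h4
  exact h4

theorem U_mono {T x : ℝ} (hT : (1 + √5) / 2 ≤ T) (hx : T ≤ x) (i : Fin 4) :
    0 ≤ U (i + 1) T ∧ U (i + 1) T ≤ U (i + 1) x := by
  have h5 : (√5) ^ 2 = 5 := Real.sq_sqrt (by norm_num)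
  have h50 : 0 ≤ √5 := Real.sqrt_nonneg 5
  have h2 : (2 : ℝ) < √5 := by
    rw [Real.lt_sqrt (by norm_num)]
    norm_num
  have hT0 : (3 / 2 : ℝ) < T := by linarith
  have hT2 : T + 1 ≤ T ^ 2 := by
    have h6 : 0 ≤ (T - (1 + √5) / 2) * (T - (1 - √5) / 2) :=
      mul_nonneg (by linarith) (by linarith)
    nlinarith
  have hxx : T ^ 2 ≤ x ^ 2 := pow_le_pow_left₀ (by linarith) hx 2
  fin_cases i
  · change 0 ≤ T ∧ T ≤ x
    exact ⟨by linarith, hx⟩
  · change 0 ≤ U 2 T ∧ U 2 T ≤ U 2 x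
    rw [U2, U2]
    exact ⟨by nlinarith, by linarith⟩
  · change 0 ≤ U 3 T ∧ U 3 T ≤ U 3 x
    rw [U3, U3]
    refine ⟨?_, ?_⟩
    · have : T ^ 3 - 2 * T = T * (T ^ 2 - 2) := by ring
      rw [this]
      exact mul_nonneg (by linarith) (by linarith)
    · have e : (x ^ 3 - 2 * x) - (T ^ 3 - 2 * T) = (x - T) * (x ^ 2 + x * T + T ^ 2 - 2) := by ring
      have h6 : 0 ≤ (x - T) * (x ^ 2 + x * T + T ^ 2 - 2) :=
        mul_nonneg (by linarith) (by nlinarith)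
      linarith
  · change 0 ≤ U 4 T ∧ U 4 T ≤ U 4 x
    rw [U4, U4]
    refine ⟨?_, ?_⟩
    · have : T ^ 4 - 3 * T ^ 2 + 1 = (T ^ 2 - T - 1) * (T ^ 2 + T - 1) := by ring
      rw [this]
      exact mul_nonneg (by linarith) (by nlinarith)
    · have e : (x ^ 4 - 3 * x ^ 2 + 1) - (T ^ 4 - 3 * T ^ 2 + 1) =
        (x ^ 2 - T ^ 2) * (x ^ 2 + T ^ 2 - 3) := by ring
      have h6 : 0 ≤ (x ^ 2 - T ^ 2) * (x ^ 2 + T ^ 2 - 3) :=
        mul_nonneg (by linarith) (by nlinarith)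
      linarith

theorem U_sign {ε : ℝ} (hε : ε = 1 ∨ ε = -1) (i : Fin 4) (x : ℝ) :
    U (i + 1) (ε * x) = ε ^ ((i : ℕ) + 1) * U (i + 1) x := by
  rcases hε with rfl | rfl <;> fin_cases i
  · simp
  · simp
  · simp
  · simp
  · change (-1 * x) = (-1) ^ 1 * x
    ring
  · change U 2 (-1 * x) = (-1) ^ 2 * U 2 x
    rw [U2, U2]; ring
  · change U 3 (-1 * x) = (-1) ^ 3 * U 3 x
    rw [U3, U3]; ring
  · change U 4 (-1 * x) = (-1) ^ 4 * U 4 x
    rw [U4, U4]; ring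

theorem W_eq (T : ℝ) : W T = ∑ i : Fin 4, U (i + 1) T ^ 2 := by
  rw [Fin.sum_univ_four]
  change _ = T ^ 2 + U 2 T ^ 2 + U 3 T ^ 2 + U 4 T ^ 2
  rw [U2, U3, U4]
  rfl

/-- **Prescribed signs.** -/
theorem signs_bound {a : Fin r → Places S → ℂ} (h : Forms a) {ε T : Fin r → ℝ}
    (hε : ∀ k, ε k = 1 ∨ ε k = -1) (hT : ∀ k, (1 + √5) / 2 ≤ T k) {B : Set (Places S)}
    (hB : ∀ v ∈ B, ∀ k, T k ≤ ε k * lam a k v) :
    UpperDensityLe B
      (1 / (1 + ∑ k, W (T k) +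
        ∑ p : {p : Fin r × Fin r // p.1 < p.2}, (T p.1.1 * T p.1.2) ^ 2 +
        ∑ p : {p : Fin r × Fin r // p.1 ≠ p.2}, ((T p.1.1 ^ 2 - 1) * T p.1.2) ^ 2)) := by
  have h5 : 0 ≤ √5 := Real.sqrt_nonneg 5
  set X : ℝ := 1 + ∑ k, W (T k) +
    ∑ p : {p : Fin r × Fin r // p.1 < p.2}, (T p.1.1 * T p.1.2) ^ 2 +
        ∑ p : {p : Fin r × Fin r // p.1 ≠ p.2}, ((T p.1.1 ^ 2 - 1) * T p.1.2) ^ 2 with hXd
  have hX : 0 < X := by
    have h1 : 0 ≤ ∑ k, W (T k) := Finset.sum_nonneg fun k _ => by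
      rw [W_eq]
      positivity
    positivity
  have hT0 : ∀ k, 0 < T k := fun k => lt_of_lt_of_le (by positivity) (hT k)
  have hsq : ∀ k, ε k * ε k = 1 := fun k => by rcases hε k with h | h <;> rw [h] <;> norm_num
  have h1 := dens h 1 (fun k i => ε k ^ ((i : ℕ) + 1) * U (i + 1) (T k))
    (fun j k => ε j * ε k * (T j * T k)) (fun j k => ε k * ((T j ^ 2 - 1) * T k))
    (B := B) hX
    fun v hv => by
      have h2 : ∀ k, W (T k) ≤ ∑ i : Fin 4, (ε k ^ ((i : ℕ) + 1) * U (i + 1) (T k)) *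
          U (i + 1) (lam a k v) := by
        intro k
        rw [W_eq]
        refine Finset.sum_le_sum fun i _ => ?_
        obtain ⟨h3, h4⟩ := U_mono (hT k) (hB v hv k) i
        rw [U_sign (hε k)] at h4
        calc U (i + 1) (T k) ^ 2 = U (i + 1) (T k) * U (i + 1) (T k) := by ring
          _ ≤ U (i + 1) (T k) * (ε k ^ ((i : ℕ) + 1) * U (i + 1) (lam a k v)) :=
            mul_le_mul_of_nonneg_left h4 h3
          _ = _ := by ring
      have h3 : ∀ p : {p : Fin r × Fin r // p.1 < p.2}, (T p.1.1 * T p.1.2) ^ 2 ≤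
          ε p.1.1 * ε p.1.2 * (T p.1.1 * T p.1.2) * (lam a p.1.1 v * lam a p.1.2 v) := by
        intro p
        have h4 := hB v hv p.1.1
        have h5 := hB v hv p.1.2
        have h6 : T p.1.1 * T p.1.2 ≤ (ε p.1.1 * lam a p.1.1 v) * (ε p.1.2 * lam a p.1.2 v) :=
          mul_le_mul h4 h5 (hT0 _).le ((hT0 _).le.trans h4)
        calc (T p.1.1 * T p.1.2) ^ 2 = (T p.1.1 * T p.1.2) * (T p.1.1 * T p.1.2) := by ring
          _ ≤ (T p.1.1 * T p.1.2) * ((ε p.1.1 * lam a p.1.1 v) * (ε p.1.2 * lam a p.1.2 v)) :=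
            mul_le_mul_of_nonneg_left h6 (mul_pos (hT0 _) (hT0 _)).le
          _ = _ := by ring
      have h3' : ∀ p : {p : Fin r × Fin r // p.1 ≠ p.2}, ((T p.1.1 ^ 2 - 1) * T p.1.2) ^ 2 ≤
          ε p.1.2 * ((T p.1.1 ^ 2 - 1) * T p.1.2) *
            ((lam a p.1.1 v ^ 2 - 1) * lam a p.1.2 v) := by
        intro p
        obtain ⟨h4, h4'⟩ := U_mono (hT p.1.1) (hB v hv p.1.1) 1
        rw [U_sign (hε p.1.1)] at h4'
        have h5 := hB v hv p.1.2
        have e1 : U ((1 : Fin 4) + 1) (T p.1.1) = T p.1.1 ^ 2 - 1 := U2 _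
        have e2 : U ((1 : Fin 4) + 1) (lam a p.1.1 v) = lam a p.1.1 v ^ 2 - 1 := U2 _
        have e3 : ε p.1.1 ^ (((1 : Fin 4) : ℕ) + 1) = 1 := by
          change ε p.1.1 ^ 2 = 1
          rw [sq, hsq]
        rw [e1] at h4 h4'
        rw [e2, e3, one_mul] at h4'
        have h6 : (T p.1.1 ^ 2 - 1) * T p.1.2 ≤
            (lam a p.1.1 v ^ 2 - 1) * (ε p.1.2 * lam a p.1.2 v) :=
          mul_le_mul h4' h5 (hT0 _).le (h4.trans h4')
        calc ((T p.1.1 ^ 2 - 1) * T p.1.2) ^ 2 =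
              ((T p.1.1 ^ 2 - 1) * T p.1.2) * ((T p.1.1 ^ 2 - 1) * T p.1.2) := by ring
          _ ≤ ((T p.1.1 ^ 2 - 1) * T p.1.2) *
              ((lam a p.1.1 v ^ 2 - 1) * (ε p.1.2 * lam a p.1.2 v)) :=
            mul_le_mul_of_nonneg_left h6 (mul_nonneg h4 (hT0 _).le)
          _ = _ := by ring
      have h4 := Finset.sum_le_sum fun k (_ : k ∈ Finset.univ) => h2 k
      have h5 := Finset.sum_le_sum fun p (_ : p ∈ Finset.univ) => h3 p
      have h6 := Finset.sum_le_sum fun p (_ : p ∈ Finset.univ) => h3' p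
      rw [hXd]
      linarith
  have e : (1 : ℝ) ^ 2 + ∑ k, ∑ i : Fin 4, (ε k ^ ((i : ℕ) + 1) * U (i + 1) (T k)) ^ 2 +
      ∑ p : {p : Fin r × Fin r // p.1 < p.2}, (ε p.1.1 * ε p.1.2 * (T p.1.1 * T p.1.2)) ^ 2 +
      ∑ p : {p : Fin r × Fin r // p.1 ≠ p.2}, (ε p.1.2 * ((T p.1.1 ^ 2 - 1) * T p.1.2)) ^ 2 =
      X := by
    rw [hXd, one_pow]
    congr 1
    · congr 1
      · congr 1
        refine Finset.sum_congr rfl fun k _ => ?_
        rw [W_eq]
        refine Finset.sum_congr rfl fun i _ => ?_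
        rw [mul_pow, ← pow_mul, mul_comm ((i : ℕ) + 1) 2, pow_mul, sq, hsq, one_pow, one_mul]
      · refine Finset.sum_congr rfl fun p _ => ?_
        calc (ε p.1.1 * ε p.1.2 * (T p.1.1 * T p.1.2)) ^ 2 =
            (ε p.1.1 * ε p.1.1) * (ε p.1.2 * ε p.1.2) * (T p.1.1 * T p.1.2) ^ 2 := by ring
          _ = _ := by rw [hsq, hsq]; ring
    · refine Finset.sum_congr rfl fun p _ => ?_
      calc (ε p.1.2 * ((T p.1.1 ^ 2 - 1) * T p.1.2)) ^ 2 =
          (ε p.1.2 * ε p.1.2) * ((T p.1.1 ^ 2 - 1) * T p.1.2) ^ 2 := by ring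
        _ = _ := by rw [hsq]; ring
  rw [e] at h1
  have e2 : X / X ^ 2 = 1 / X := by
    field_simp
  rw [e2] at h1
  exact h1

/-- **All forms are large.** -/
theorem all_bound {a : Fin r → Places S → ℂ} (h : Forms a) {T : Fin r → ℝ}
    (hT : ∀ k, (1 + √5) / 2 ≤ T k) {B : Set (Places S)}
    (hB : ∀ v ∈ B, ∀ k, T k ≤ |lam a k v|) :
    UpperDensityLe B
      (1 / (1 + ∑ k, ((T k ^ 2 - 1) ^ 2 + (T k ^ 4 - 3 * T k ^ 2 + 1) ^ 2))) := by
  set X : ℝ := 1 + ∑ k, ((T k ^ 2 - 1) ^ 2 + (T k ^ 4 - 3 * T k ^ 2 + 1) ^ 2) with hXd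
  have hX : 0 < X := by positivity
  have h1 := dens h 1 (fun k => ![0, T k ^ 2 - 1, 0, T k ^ 4 - 3 * T k ^ 2 + 1])
    (fun j k => 0) (fun j k => 0) (B := B) hX
    fun v hv => by
      simp only [zero_mul, Finset.sum_const_zero, add_zero]
      rw [hXd]
      refine add_le_add le_rfl (Finset.sum_le_sum fun k _ => ?_)
      rw [Fin.sum_univ_four]
      change _ ≤ 0 * lam a k v + (T k ^ 2 - 1) * U 2 (lam a k v) + 0 * U 3 (lam a k v) +
        (T k ^ 4 - 3 * T k ^ 2 + 1) * U 4 (lam a k v)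
      obtain ⟨g1, g2⟩ := U_mono (hT k) (hB v hv k) 1
      obtain ⟨g3, g4⟩ := U_mono (hT k) (hB v hv k) 3
      change 0 ≤ U 2 (T k) at g1
      change U 2 (T k) ≤ U 2 |lam a k v| at g2
      change 0 ≤ U 4 (T k) at g3
      change U 4 (T k) ≤ U 4 |lam a k v| at g4
      have e4 : |lam a k v| ^ 4 = lam a k v ^ 4 := by
        rw [show (4 : ℕ) = 2 * 2 from rfl, pow_mul, sq_abs, ← pow_mul]
      rw [U2, U2, sq_abs] at g2
      rw [U4, U4, sq_abs, e4] at g4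
      rw [U2] at g1
      rw [U4] at g3
      rw [U2, U4]
      nlinarith [mul_le_mul_of_nonneg_left g2 g1, mul_le_mul_of_nonneg_left g4 g3]
  have e : (1 : ℝ) ^ 2 + ∑ k, ∑ i : Fin 4,
      (![0, T k ^ 2 - 1, 0, T k ^ 4 - 3 * T k ^ 2 + 1] : Fin 4 → ℝ) i ^ 2 +
      ∑ p : {p : Fin r × Fin r // p.1 < p.2}, (0 : ℝ) ^ 2 +
      ∑ p : {p : Fin r × Fin r // p.1 ≠ p.2}, (0 : ℝ) ^ 2 = X := by
    rw [hXd]
    simp only [ne_eq, OfNat.ofNat_ne_zero, not_false_eq_true, zero_pow, Finset.sum_const_zero,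
      add_zero, one_pow]
    congr 1
    refine Finset.sum_congr rfl fun k _ => ?_
    rw [Fin.sum_univ_four]
    change (0 : ℝ) ^ 2 + (T k ^ 2 - 1) ^ 2 + 0 ^ 2 + (T k ^ 4 - 3 * T k ^ 2 + 1) ^ 2 = _
    ring
  rw [e] at h1
  have e2 : X / X ^ 2 = 1 / X := by
    field_simp
  rw [e2] at h1
  exact h1

theorem card_ne (r : ℕ) :
    (Fintype.card {p : Fin r × Fin r // p.1 ≠ p.2} : ℝ) = (r : ℝ) * (r - 1) := by
  have h1 : Fintype.card {p : Fin r × Fin r // p.1 = p.2} = r := by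
    have e : {p : Fin r × Fin r // p.1 = p.2} ≃ Fin r :=
      { toFun := fun p => p.1.1
        invFun := fun k => ⟨(k, k), rfl⟩
        left_inv := fun p => Subtype.ext (Prod.ext rfl p.2)
        right_inv := fun k => rfl }
    rw [Fintype.card_congr e, Fintype.card_fin]
  have h2 : Fintype.card {p : Fin r × Fin r // p.1 ≠ p.2} =
      Fintype.card (Fin r × Fin r) - Fintype.card {p : Fin r × Fin r // p.1 = p.2} :=
    Fintype.card_subtype_compl _
  rw [h1, Fintype.card_prod, Fintype.card_fin] at h2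
  have h3 : r ≤ r * r := Nat.le_mul_self r
  rw [h2, Nat.cast_sub h3, Nat.cast_mul]
  ring

theorem card_lt (r : ℕ) :
    (Fintype.card {p : Fin r × Fin r // p.1 < p.2} : ℝ) = (r : ℝ) * (r - 1) / 2 := by
  have h1 := card_ne r
  have e1 : Fintype.card {p : Fin r × Fin r // p.1 < p.2} =
      Fintype.card {p : Fin r × Fin r // p.2 < p.1} :=
    Fintype.card_congr
      { toFun := fun p => ⟨(p.1.2, p.1.1), p.2⟩
        invFun := fun p => ⟨(p.1.2, p.1.1), p.2⟩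
        left_inv := fun p => rfl
        right_inv := fun p => rfl }
  have e2 : Fintype.card {p : Fin r × Fin r // p.1 ≠ p.2} =
      Fintype.card {p : Fin r × Fin r // p.1 < p.2} +
      Fintype.card {p : Fin r × Fin r // p.2 < p.1} := by
    rw [← Fintype.card_subtype_or_disjoint]
    · exact Fintype.card_congr (Equiv.subtypeEquivRight fun p => ne_iff_lt_or_gt)
    · rw [Pi.disjoint_iff]
      intro p
      rw [Prop.disjoint_iff]
      exact fun h => lt_asymm h.1 h.2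
  rw [e2, ← e1] at h1
  push_cast at h1
  linarith

/-- the coefficients of the extremal function `(1 + 3 U_2(λ_k) + 5 U_4(λ_k)) / 35` -/
noncomputable def fk (k : Fin r) : Rep r → ℝ :=
  co (1 / 35) (fun k' i => if k' = k then (![0, 3 / 35, 0, 1 / 7] : Fin 4 → ℝ) i else 0)
    (fun _ _ => 0) (fun _ _ => 0)

/-- the extremal function -/
noncomputable def Fk (a : Fin r → Places S → ℂ) (k : Fin r) (v : Places S) : ℝ :=
  (1 + 3 * U 2 (lam a k v) + 5 * U 4 (lam a k v)) / 35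

theorem fk_val {a : Fin r → Places S → ℂ} (h : Forms a) (k : Fin r) (v : Places S) :
    ∑ ρ, (fk k ρ : ℂ) * ∑ l, par a ρ v l = (Fk a k v : ℂ) := by
  unfold fk
  rw [val h]
  congr 1
  unfold Fk
  simp only [zero_mul, Finset.sum_const_zero, add_zero]
  rw [Finset.sum_eq_single k]
  · simp only [if_true]
    rw [Fin.sum_univ_four]
    change 1 / 35 + (0 * lam a k v + 3 / 35 * U 2 (lam a k v) + 0 * U 3 (lam a k v) +
      1 / 7 * U 4 (lam a k v)) = _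
    ring
  · intro k' _ hk
    refine Finset.sum_eq_zero fun i _ => ?_
    rw [if_neg hk, zero_mul]
  · intro hk
    exact absurd (Finset.mem_univ _) hk

theorem fk_inner (i j : Fin r) :
    ∑ ρ, fk i ρ * fk j ρ = if i = j then 1 / 35 else 1 / 1225 := by
  rw [Fintype.sum_sum_type, Fintype.sum_sum_type, Fintype.sum_sum_type, Fintype.sum_prod_type]
  simp only [fk, co, Sum.elim_inl, Sum.elim_inr, Finset.univ_unique, Finset.sum_singleton,
    mul_zero, Finset.sum_const_zero, add_zero]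
  rw [Finset.sum_eq_single i]
  · simp only [if_true]
    by_cases hij : i = j
    · rw [if_pos hij]
      simp only [if_pos hij]
      rw [Fin.sum_univ_four]
      change (1 : ℝ) / 35 * (1 / 35) + (0 * 0 + 3 / 35 * (3 / 35) + 0 * 0 + 1 / 7 * (1 / 7)) = _
      norm_num
    · rw [if_neg hij]
      simp only [if_neg hij, mul_zero, Finset.sum_const_zero]
      norm_num
  · intro k' _ hk
    refine Finset.sum_eq_zero fun l _ => ?_
    rw [if_neg hk, zero_mul]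
  · intro hk
    exact absurd (Finset.mem_univ _) hk

/-- **The union.** -/
theorem union_bound {a : Fin r → Places S → ℂ} (h : Forms a) (hr : 1 ≤ r) {B : Set (Places S)}
    (hB : ∀ v ∈ B, ∃ k, 2 ≤ |lam a k v|) :
    UpperDensityLe B (((r - 1) * √34 + √(r + 34)) ^ 2 / (1225 * r)) := by
  classical
  have hr1 : (1 : ℝ) ≤ r := by exact_mod_cast hr
  have hr0 : (0 : ℝ) < r := by linarith
  have h34 : 0 < √34 := Real.sqrt_pos.2 (by norm_num)
  have hr34 : 0 < √((r : ℝ) + 34) := Real.sqrt_pos.2 (by linarith)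
  have h34s : √34 * √34 = 34 := Real.mul_self_sqrt (by norm_num)
  have hr34s : √((r : ℝ) + 34) * √((r : ℝ) + 34) = r + 34 := Real.mul_self_sqrt (by linarith)
  set s1 := √34 with hs1
  set s2 := √((r : ℝ) + 34) with hs2
  set L : ℝ := ((r - 1) * s1 + s2) / r with hL
  have hL0 : 0 < L := by
    rw [hL]
    have : 0 ≤ ((r : ℝ) - 1) * s1 := mul_nonneg (by linarith) h34.le
    positivity
  set z : ℝ := L / s2 with hz
  set x : ℝ := L / s1 with hx
  have hz0 : 0 < z := by positivity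
  have hx0 : 0 < x := by positivity
  have hxz : x + (r - 1) * z = z * x * r := by
    rw [hz, hx]
    have e1 : (r : ℝ) * L = (r - 1) * s1 + s2 := by rw [hL]; field_simp
    field_simp
    linear_combination -e1
  have h1 := Pool.Agent.H448.SV.density_sq (q := fun v : Places S => q v.1) (q_gt)
    (A := fun ρ v => par a ρ v) (par_bound h)
    (fun ρ ρ' s hs => h.conv ρ ρ' s (by simpa using hs))
    (e := fun ρ ρ' => if ρ = ρ' then 1 else 0) h.pole
    (κ := Unit ⊕ (Fin r × Fin r)) (Sum.elim (fun _ => z / r) fun _ => x / (2 * r))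
    (by
      rintro (u | p)
      · exact (div_pos hz0 hr0).le
      · exact (div_pos hx0 (by positivity)).le)
    (Sum.elim (fun _ ρ => ∑ k, fk k ρ) fun p ρ => fk p.1 ρ - fk p.2 ρ) (B := B) (by
      intro v hv
      obtain ⟨k, hk⟩ := hB v hv
      have hF : 1 ≤ Fk a k v := by
        have h4 : 4 ≤ lam a k v ^ 2 := by
          rw [← sq_abs]
          nlinarith
        unfold Fk
        rw [U2, U4]
        have e4 : lam a k v ^ 4 = (lam a k v ^ 2) ^ 2 := by ring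
        rw [e4, le_div_iff₀ (by norm_num)]
        nlinarith
      have h5 := Pool.Agent.H448.SV.quad (fun k => Fk a k v) k hF hx0 hz0 hxz
      rw [Fintype.sum_sum_type, Fintype.sum_prod_type]
      simp only [Sum.elim_inl, Sum.elim_inr, Finset.univ_unique, Finset.sum_singleton]
      have e1 : ∑ ρ, ((∑ k, fk k ρ : ℝ) : ℂ) * ∑ l, par a ρ v l = ((∑ k, Fk a k v : ℝ) : ℂ) := by
        push_cast
        simp only [Finset.sum_mul]
        rw [Finset.sum_comm]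
        exact Finset.sum_congr rfl fun k _ => fk_val h k v
      have e2 : ∀ i j : Fin r, ∑ ρ, ((fk i ρ - fk j ρ : ℝ) : ℂ) * ∑ l, par a ρ v l =
          ((Fk a i v - Fk a j v : ℝ) : ℂ) := by
        intro i j
        push_cast
        simp only [sub_mul, Finset.sum_sub_distrib]
        rw [fk_val h i v, fk_val h j v]
      simp only [e1, e2, Complex.norm_real, Real.norm_eq_abs, sq_abs, ← Finset.mul_sum]
      exact h5)
  have e3 : ∑ y : Unit ⊕ (Fin r × Fin r),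
      (Sum.elim (fun _ => z / r) fun _ => x / (2 * r) : Unit ⊕ (Fin r × Fin r) → ℝ) y *
      (∑ ρ, ∑ ρ', (Sum.elim (fun _ ρ => ∑ k, fk k ρ) fun p ρ => fk p.1 ρ - fk p.2 ρ :
        Unit ⊕ (Fin r × Fin r) → Rep r → ℝ) y ρ *
        (Sum.elim (fun _ ρ => ∑ k, fk k ρ) fun p ρ => fk p.1 ρ - fk p.2 ρ :
        Unit ⊕ (Fin r × Fin r) → Rep r → ℝ) y ρ' * ((if ρ = ρ' then 1 else 0 : ℤ) : ℝ)) =
      ((r - 1) * s1 + s2) ^ 2 / (1225 * r) := by
    simp only [quad_form]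
    rw [Fintype.sum_sum_type, Fintype.sum_prod_type]
    simp only [Sum.elim_inl, Sum.elim_inr, Finset.univ_unique, Finset.sum_singleton,
      ← Finset.mul_sum]
    have e4 : ∑ ρ : Rep r, (∑ k, fk k ρ) ^ 2 = r * (r + 34) / 1225 := by
      have e5 : ∀ ρ : Rep r, (∑ k, fk k ρ) ^ 2 = ∑ i, ∑ j, fk i ρ * fk j ρ := fun ρ => by
        rw [sq, Finset.sum_mul_sum]
      simp only [e5]
      rw [Finset.sum_comm]
      have e6 : ∀ i : Fin r, ∑ ρ : Rep r, ∑ j, fk i ρ * fk j ρ = 1 / 35 + (r - 1) / 1225 := by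
        intro i
        rw [Finset.sum_comm]
        simp only [fk_inner]
        rw [← Finset.add_sum_erase Finset.univ _ (Finset.mem_univ i), if_pos rfl]
        congr 1
        rw [Finset.sum_congr rfl fun j hj => if_neg (Finset.ne_of_mem_erase hj).symm,
          Finset.sum_const, Finset.card_erase_of_mem (Finset.mem_univ i), Finset.card_univ,
          Fintype.card_fin, nsmul_eq_mul, Nat.cast_sub hr, Nat.cast_one]
        ring
      simp only [e6, Finset.sum_const, Finset.card_univ, Fintype.card_fin, nsmul_eq_mul]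
      ring
    have e7 : ∑ i : Fin r, ∑ j : Fin r, ∑ ρ : Rep r, (fk i ρ - fk j ρ) ^ 2 =
        r * (r - 1) * 68 / 1225 := by
      have e8 : ∀ i j : Fin r, ∑ ρ : Rep r, (fk i ρ - fk j ρ) ^ 2 =
          if i = j then 0 else 68 / 1225 := by
        intro i j
        have e9 : ∀ ρ : Rep r, (fk i ρ - fk j ρ) ^ 2 =
            fk i ρ * fk i ρ + fk j ρ * fk j ρ - 2 * (fk i ρ * fk j ρ) := fun ρ => by ring
        simp only [e9, Finset.sum_sub_distrib, Finset.sum_add_distrib, ← Finset.mul_sum, fk_inner,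
          if_true]
        split_ifs <;> norm_num
      simp only [e8]
      have e10 : ∀ i : Fin r, ∑ j : Fin r, (if i = j then (0 : ℝ) else 68 / 1225) =
          (r - 1) * 68 / 1225 := by
        intro i
        rw [← Finset.add_sum_erase Finset.univ _ (Finset.mem_univ i), if_pos rfl, zero_add]
        rw [Finset.sum_congr rfl fun j hj => if_neg (Finset.ne_of_mem_erase hj).symm,
          Finset.sum_const, Finset.card_erase_of_mem (Finset.mem_univ i), Finset.card_univ,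
          Fintype.card_fin, nsmul_eq_mul, Nat.cast_sub hr, Nat.cast_one]
        ring
      simp only [e10, Finset.sum_const, Finset.card_univ, Fintype.card_fin, nsmul_eq_mul]
      ring
    rw [e4, e7]
    have e1 : L * r = (r - 1) * s1 + s2 := by rw [hL]; field_simp
    have e11 : z * (r + 34) = L * s2 := by
      rw [hz, ← hr34s]
      field_simp
    have e12 : x * 34 = L * s1 := by
      rw [hx]
      nth_rewrite 1 [← h34s]
      field_simp
    have e13 : z / r * (r * (r + 34) / 1225) + x / (2 * r) * (r * (r - 1) * 68 / 1225) =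
        (z * (r + 34) + (x * 34) * (r - 1)) / 1225 := by
      field_simp
      ring
    rw [e13, e11, e12, ← e1]
    have e14 : L * s2 + L * s1 * (r - 1) = L * (L * r) := by rw [e1]; ring
    rw [e14]
    field_simp
  rw [e3] at h1
  exact h1

/-- **Common tempered places.** -/
theorem tempered_bound {a : Fin r → Places S → ℂ} (h : Forms a) (hr : 1 ≤ r) (hr' : r ≤ 35) :
    LowerDensityGe {v : Places S | ∀ k, ‖a k v‖ = 1} (1 / 206) := by
  have h1 := union_bound h hr (B := {v | ∃ k, ‖a k v‖ ≠ 1}) fun v hv => by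
    obtain ⟨k, hk⟩ := hv
    exact ⟨k, two_le h hk⟩
  have hr1 : (1 : ℝ) ≤ r := by exact_mod_cast hr
  have h34 : 0 ≤ √34 := Real.sqrt_nonneg _
  have hr34 : 0 ≤ √((r : ℝ) + 34) := Real.sqrt_nonneg _
  have h34s : √34 ^ 2 = 34 := Real.sq_sqrt (by norm_num)
  have hr34s : √((r : ℝ) + 34) ^ 2 = r + 34 := Real.sq_sqrt (by linarith)
  have hd : ((r - 1) * √34 + √(r + 34)) ^ 2 / (1225 * r) ≤ 205 / 206 := by
    rw [div_le_iff₀ (by positivity)]
    rcases Nat.lt_or_ge r 35 with h35 | h35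
    · have h35' : (r : ℝ) ≤ 34 := by exact_mod_cast Nat.lt_succ_iff.1 h35
      -- the Cauchy-Schwarz inequality
      have h2 : ((r - 1) * √34 + √(r + 34)) ^ 2 ≤ r * (35 * r) := by
        have h3 : 0 ≤ ((r : ℝ) - 1) * (√34 - √(r + 34)) ^ 2 :=
          mul_nonneg (by linarith) (sq_nonneg _)
        nlinarith
      refine h2.trans ?_
      nlinarith
    · have h36 : r = 35 := le_antisymm hr' h35
      have e : (r : ℝ) = 35 := by exact_mod_cast h36
      rw [e]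
      have h5 : √((35 : ℝ) + 34) ≤ 83067 / 10000 := by
        rw [Real.sqrt_le_left (by norm_num)]
        norm_num
      have h6 : √34 ≤ 583096 / 100000 := by
        rw [Real.sqrt_le_left (by norm_num)]
        norm_num
      have h7 : (35 - 1) * √34 + √((35 : ℝ) + 34) ≤ 20655934 / 100000 := by linarith
      have h8 : 0 ≤ (35 - 1) * √34 + √((35 : ℝ) + 34) :=
        add_nonneg (mul_nonneg (by norm_num) h34) (Real.sqrt_nonneg _)
      calc ((35 - 1) * √34 + √((35 : ℝ) + 34)) ^ 2 ≤ (20655934 / 100000) ^ 2 :=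
            pow_le_pow_left₀ h8 h7 2
        _ ≤ _ := by norm_num
  -- all places
  have hsum : ∀ᶠ s : ℝ in 𝓝[>] 1, Summable fun v : Places S => (q v.1 : ℝ) ^ (-s) := by
    have h2 := dens h 1 (fun _ _ => 0) (fun _ _ => 0) (fun _ _ => 0) (B := Set.univ) one_pos
      (fun v _ => by simp) 1 one_pos
    filter_upwards [h2] with s hs
    rw [Set.indicator_univ] at hs
    exact hs.1
  have hfac : ∀ s : ℂ, factor a (Sum.inl ()) (Sum.inl ()) s =
      fun v : Places S => (1 - (q v.1 : ℂ) ^ (-s))⁻¹ := by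
    intro s
    funext v
    unfold factor
    change ∏ _l : Fin 1, ∏ _m : Fin 1, (1 - 1 * conj (1 : ℂ) * (q v.1 : ℂ) ^ (-s))⁻¹ = _
    simp
  obtain ⟨C, hC⟩ := Pool.Agent.H448.SV.all_lower (q := fun v : Places S => q v.1) q_gt
    (fun s hs => by
      have := h.conv (Sum.inl ()) (Sum.inl ()) s (by simpa using hs)
      rwa [hfac] at this)
    (by
      obtain ⟨Λ, e1, e2, e3⟩ := h.pole (Sum.inl ()) (Sum.inl ())
      refine ⟨Λ, e1, by rw [e2, if_pos rfl], ?_⟩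
      filter_upwards [e3] with s h5 h6
      rw [h5 h6, hfac]) hsum
  have h9 := Pool.Agent.H448.SV.compl_lower (q := fun v : Places S => q v.1) hsum hC h1
  intro ε hε
  have hpos : ∀ᶠ s : ℝ in 𝓝[>] 1, 0 ≤ Real.log (1 / (s - 1)) :=
    Pool.Agent.X289.RSD.log_atTop.eventually (eventually_ge_atTop 0)
  have hset : {v : Places S | ∃ k, ‖a k v‖ ≠ 1}ᶜ = {v | ∀ k, ‖a k v‖ = 1} := by
    ext v
    simp
  filter_upwards [h9 ε hε, hpos] with s h10 h11
  rw [hset] at h10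
  refine ⟨h10.1, le_trans (mul_le_mul_of_nonneg_right ?_ h11) h10.2⟩
  linarith

end

/-- **Simultaneous violations of the Ramanujan conjecture.**  Let `S` be a finite set of finite places of the number
field `K` and let `φ_1, ..., φ_r` be forms on `PGL_2` as in `Forms`, with the Satake parameters `a_k(v)^{±1}` and the
Hecke eigenvalues `λ_k(v) = lam a k v`; so `φ_k` violates the conjecture of Ramanujan at `v` if `|a_k(v)| ≠ 1`.

1. For `j ≠ k` and real `c_{mn}`, `m, n ≤ 2`, the places with `|∑ c_{mn} U_m(λ_j(v)) U_n(λ_k(v))| ≥ 1` have upper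
   density at most `∑ c_{mn}²`.
2. For `j ≠ k` and `T, T' ≥ 1` the places with `|λ_j(v)| ≥ T` and `|λ_k(v)| ≥ T'` have upper density at most
   `1 / ((1 + (T² - 1)²) (1 + (T'² - 1)²))`.
3. For `j ≠ k`, `T, T' ≥ 1` and signs `ε, ε'` the places with `ε λ_j(v) ≥ T` and `ε' λ_k(v) ≥ T'` have upper density
   at most `1 / ((1 + T² + (T² - 1)²) (1 + T'² + (T'² - 1)²))`.
4. For `j ≠ k` the places at which both `φ_j` and `φ_k` violate the conjecture have upper density at most `1/100`, and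
   the ones at which moreover the signs of the eigenvalues are given have upper density at most `1/196`.
5. The places at which all forms violate the conjecture have upper density at most `1 / (34 r + 1)`.
6. For signs `ε_k` and `T_k ≥ (1 + √5)/2` the places with `ε_k λ_k(v) ≥ T_k` for all `k` have upper density at most
   `1 / (1 + ∑_k W(T_k) + ∑_{j<k} (T_j T_k)² + ∑_{j≠k} ((T_j² - 1) T_k)²)`.
7. The places at which all forms violate the conjecture with given signs of the eigenvalues have upper density at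
   most `1 / (44 r² + 10 r + 1)`.
8. The places at which at least one of the forms violates the conjecture have upper density at most
   `((r - 1) √34 + √(r + 34))² / (1225 r)`, if `r ≥ 1`.
9. If `1 ≤ r ≤ 35` the places at which all forms satisfy the conjecture have lower density at least `1/206`. -/
theorem result {K : Type} [Field K] [NumberField K] (S : Finset (HeightOneSpectrum (𝓞 K)))
    (r : ℕ) (a : Fin r → Places S → ℂ) (h : Forms a) :
    (∀ j k : Fin r, j ≠ k → ∀ c : Fin 3 → Fin 3 → ℝ,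
      UpperDensityLe {v | 1 ≤ |∑ m, ∑ n, c m n * (U m (lam a j v) * U n (lam a k v))|}
        (∑ m, ∑ n, c m n ^ 2)) ∧
    (∀ j k : Fin r, j ≠ k → ∀ T T' : ℝ, 1 ≤ T → 1 ≤ T' →
      UpperDensityLe {v | T ≤ |lam a j v| ∧ T' ≤ |lam a k v|}
        (1 / ((1 + (T ^ 2 - 1) ^ 2) * (1 + (T' ^ 2 - 1) ^ 2)))) ∧
    (∀ j k : Fin r, j ≠ k → ∀ T T' ε ε' : ℝ, 1 ≤ T → 1 ≤ T' → (ε = 1 ∨ ε = -1) →
      (ε' = 1 ∨ ε' = -1) →
      UpperDensityLe {v | T ≤ ε * lam a j v ∧ T' ≤ ε' * lam a k v}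
        (1 / ((1 + T ^ 2 + (T ^ 2 - 1) ^ 2) * (1 + T' ^ 2 + (T' ^ 2 - 1) ^ 2)))) ∧
    (∀ j k : Fin r, j ≠ k →
      UpperDensityLe {v | ‖a j v‖ ≠ 1 ∧ ‖a k v‖ ≠ 1} (1 / 100) ∧
      ∀ ε ε' : ℝ, (ε = 1 ∨ ε = -1) → (ε' = 1 ∨ ε' = -1) →
        UpperDensityLe {v | (‖a j v‖ ≠ 1 ∧ 0 ≤ ε * lam a j v) ∧ ‖a k v‖ ≠ 1 ∧
          0 ≤ ε' * lam a k v} (1 / 196)) ∧
    UpperDensityLe {v | ∀ k, ‖a k v‖ ≠ 1} (1 / (34 * r + 1)) ∧
    (∀ ε T : Fin r → ℝ, (∀ k, ε k = 1 ∨ ε k = -1) → (∀ k, (1 + √5) / 2 ≤ T k) →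
      UpperDensityLe {v | ∀ k, T k ≤ ε k * lam a k v} (1 / (1 + ∑ k, W (T k) +
        ∑ p : {p : Fin r × Fin r // p.1 < p.2}, (T p.1.1 * T p.1.2) ^ 2 +
        ∑ p : {p : Fin r × Fin r // p.1 ≠ p.2}, ((T p.1.1 ^ 2 - 1) * T p.1.2) ^ 2))) ∧
    (∀ ε : Fin r → ℝ, (∀ k, ε k = 1 ∨ ε k = -1) →
      UpperDensityLe {v | ∀ k, ‖a k v‖ ≠ 1 ∧ 0 ≤ ε k * lam a k v}
        (1 / (44 * r ^ 2 + 10 * r + 1))) ∧
    (1 ≤ r → UpperDensityLe {v | ∃ k, ‖a k v‖ ≠ 1}
      (((r - 1) * √34 + √(r + 34)) ^ 2 / (1225 * r))) ∧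
    (1 ≤ r → r ≤ 35 → LowerDensityGe {v | ∀ k, ‖a k v‖ = 1} (1 / 206)) := by
  have h5 : (1 + √5) / 2 ≤ 2 := by
    have : √5 ≤ 3 := by
      rw [Real.sqrt_le_left (by norm_num)]
      norm_num
    linarith
  -- a violation with a given sign
  have hsgn : ∀ (k : Fin r) (v : Places S) (ε : ℝ), (ε = 1 ∨ ε = -1) → ‖a k v‖ ≠ 1 →
      0 ≤ ε * lam a k v → 2 ≤ ε * lam a k v := by
    intro k v ε hε h1 h2
    have h3 := two_le h h1
    have h4 : |ε * lam a k v| = |lam a k v| := by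
      rw [abs_mul]
      rcases hε with h | h <;> rw [h] <;> simp
    rw [← h4, abs_of_nonneg h2] at h3
    exact h3
  refine ⟨fun j k hjk c => ?_, fun j k hjk T T' hT hT' => pair_large h hjk hT hT' fun v hv => hv,
    fun j k hjk T T' ε ε' hT hT' hε hε' => pair_signs h hjk hT hT' hε hε' fun v hv => hv,
    fun j k hjk => ⟨?_, fun ε ε' hε hε' => ?_⟩, ?_,
    fun ε T hε hT => signs_bound h hε hT fun v hv => hv, fun ε hε => ?_,
    fun hr => union_bound h hr fun v hv => ?_, fun hr hr' => tempered_bound h hr hr'⟩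
  · have h1 := pair h hjk c (B := {v | 1 ≤ |∑ m, ∑ n, c m n * (U m (lam a j v) *
      U n (lam a k v))|}) one_pos fun v hv => hv
    rwa [one_pow, div_one] at h1
  · have h1 := pair_large h hjk (T := 2) (T' := 2) (by norm_num) (by norm_num)
      (B := {v | ‖a j v‖ ≠ 1 ∧ ‖a k v‖ ≠ 1}) fun v hv => ⟨two_le h hv.1, two_le h hv.2⟩
    norm_num at h1 ⊢
    exact h1
  · have h1 := pair_signs h hjk (T := 2) (T' := 2) (by norm_num) (by norm_num) hε hε'
      (B := {v | (‖a j v‖ ≠ 1 ∧ 0 ≤ ε * lam a j v) ∧ ‖a k v‖ ≠ 1 ∧ 0 ≤ ε' * lam a k v})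
      fun v hv => ⟨hsgn j v ε hε hv.1.1 hv.1.2, hsgn k v ε' hε' hv.2.1 hv.2.2⟩
    norm_num at h1 ⊢
    exact h1
  · have h1 := all_bound h (T := fun _ => 2) (fun _ => h5) (B := {v | ∀ k, ‖a k v‖ ≠ 1})
      fun v hv k => two_le h (hv k)
    have e : (1 : ℝ) + ∑ _k : Fin r, (((2 : ℝ) ^ 2 - 1) ^ 2 + (2 ^ 4 - 3 * 2 ^ 2 + 1) ^ 2) =
        34 * r + 1 := by
      rw [Finset.sum_const, Finset.card_univ, Fintype.card_fin, nsmul_eq_mul]
      ring
    rw [e] at h1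
    exact h1
  · have h1 := signs_bound h (T := fun _ => 2) hε (fun k => h5)
      (B := {v | ∀ k, ‖a k v‖ ≠ 1 ∧ 0 ≤ ε k * lam a k v}) fun v hv k =>
        hsgn k v (ε k) (hε k) (hv k).1 (hv k).2
    have e : 1 + ∑ _k : Fin r, W 2 +
        ∑ _p : {p : Fin r × Fin r // p.1 < p.2}, ((2 : ℝ) * 2) ^ 2 +
        ∑ _p : {p : Fin r × Fin r // p.1 ≠ p.2}, (((2 : ℝ) ^ 2 - 1) * 2) ^ 2 =
        44 * r ^ 2 + 10 * r + 1 := by
      rw [Finset.sum_const, Finset.sum_const, Finset.sum_const, Finset.card_univ,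
        Finset.card_univ, Finset.card_univ, nsmul_eq_mul, nsmul_eq_mul, nsmul_eq_mul, card_lt,
        card_ne, Fintype.card_fin]
      unfold W
      ring
    rw [e] at h1
    exact h1
  · obtain ⟨k, hk⟩ := hv
    exact ⟨k, two_le h hk⟩

end Pool.Agent.Results.MP_fa98d2_nt.SimultaneousViolations
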